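import Mathlib

set_option autoImplicit false

open MeasureTheory Measure Set Filter Topology
open scoped ENNReal NNReal

namespace Pool.H65.Kls

lemma vol_l1_le (k : ℕ) (v : ℝ) :
    volume {y : Fin k → ℝ | v + ∑ i, |y i| < 1} ≤
      ENNReal.ofReal (2 ^ k / k.factorial) * ENNReal.ofReal (Real.exp (-(k * v))) := by
  rcases Nat.eq_zero_or_pos k with hk | hk
  · subst hk
    simp only [Finset.univ_eq_empty, Finset.sum_empty, add_zero, pow_zero, Nat.factorial_zero,
      Nat.cast_one, div_one, ENNReal.ofReal_one, Nat.cast_zero, zero_mul, neg_zero, Real.exp_zero,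
      mul_one]
    refine le_trans (measure_mono (subset_univ _)) ?_
    simp [volume_pi]
  · have : Nonempty (Fin k) := ⟨⟨0, hk⟩⟩
    have h := volume_sum_rpow_lt (Fin k) (p := 1) le_rfl (1 - v)
    simp only [Real.rpow_one, div_one, Fintype.card_fin] at h
    have hset : {y : Fin k → ℝ | v + ∑ i, |y i| < 1} = {y : Fin k → ℝ | ∑ i, |y i| < 1 - v} := by
      ext y
      simp only [mem_ofPred_eq]
      constructor <;> intro h <;> linarith
    rw [hset, h, Real.Gamma_nat_eq_factorial]
    have hG : Real.Gamma (1 + 1) = 1 := by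
      rw [Real.Gamma_add_one one_ne_zero, Real.Gamma_one, one_mul]
    rw [hG, mul_one, mul_comm]
    gcongr
    rcases le_or_gt (1 - v) 0 with h1 | h1
    · rw [ENNReal.ofReal_of_nonpos h1, zero_pow hk.ne']
      exact zero_le
    · rw [← ENNReal.ofReal_pow h1.le]
      apply ENNReal.ofReal_le_ofReal
      rw [show -((k : ℝ) * v) = (k : ℝ) * (-v) by ring, Real.exp_nat_mul]
      refine pow_le_pow_left₀ h1.le ?_ k
      have := Real.add_one_le_exp (-v)
      linarith

/-- Integrals over the cross-polytope of functions of `n` coordinates. -/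
lemma marginal {n k N : ℕ} (e : Fin n ⊕ Fin k ≃ Fin N) (H : (Fin n → ℝ) → ℝ≥0∞)
    (hH : Measurable H) :
    ∫⁻ x : Fin N → ℝ in {x | ∑ i, |x i| < 1}, H (fun i => x (e (Sum.inl i))) ≤
      ENNReal.ofReal (2 ^ k / k.factorial) *
        ∫⁻ z : Fin n → ℝ, H z * ENNReal.ofReal (Real.exp (-(k * ∑ i, |z i|))) := by
  have hT1 := (volume_measurePreserving_sumPiEquivProdPi (fun _ : Fin n ⊕ Fin k => ℝ)).symm
  have hT2 := volume_measurePreserving_piCongrLeft (fun _ : Fin N => ℝ) e
  have hT := hT2.comp hT1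
  set T : (Fin n → ℝ) × (Fin k → ℝ) → (Fin N → ℝ) :=
    (MeasurableEquiv.piCongrLeft (fun _ : Fin N => ℝ) e) ∘
      (MeasurableEquiv.sumPiEquivProdPi (fun _ : Fin n ⊕ Fin k => ℝ)).symm with hTdef
  have hTl : ∀ p i, T p (e (Sum.inl i)) = p.1 i := by
    intro p i
    simp only [hTdef, Function.comp_apply, MeasurableEquiv.coe_piCongrLeft]
    rw [Equiv.piCongrLeft_apply_apply]
    rfl
  have hTr : ∀ p j, T p (e (Sum.inr j)) = p.2 j := by
    intro p i
    simp only [hTdef, Function.comp_apply, MeasurableEquiv.coe_piCongrLeft]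
    rw [Equiv.piCongrLeft_apply_apply]
    rfl
  have hsum : ∀ p, ∑ i, |T p i| = ∑ i, |p.1 i| + ∑ j, |p.2 j| := by
    intro p
    rw [← Equiv.sum_comp e, Fintype.sum_sum_type]
    simp_rw [hTl, hTr]
  have hS : MeasurableSet {x : Fin N → ℝ | ∑ i, |x i| < 1} := by
    refine measurableSet_lt ?_ measurable_const
    fun_prop
  have hHm : Measurable (fun x : Fin N → ℝ => H (fun i => x (e (Sum.inl i)))) :=
    hH.comp (by fun_prop)
  rw [← lintegral_indicator hS, ← hT.lintegral_comp (hHm.indicator hS)]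
  have hvp : (volume : Measure ((Fin n → ℝ) × (Fin k → ℝ))) = volume.prod volume := rfl
  rw [hvp, lintegral_prod]
  · rw [← lintegral_const_mul' _ _ ENNReal.ofReal_ne_top]
    refine lintegral_mono fun z => ?_
    have hz : ∀ y, ({x : Fin N → ℝ | ∑ i, |x i| < 1}.indicator
        (fun x => H (fun i => x (e (Sum.inl i))))) (T (z, y))
        = {y : Fin k → ℝ | ∑ i, |z i| + ∑ i, |y i| < 1}.indicator (fun _ => H z) y := by
      intro y
      simp only [indicator, mem_ofPred_eq, hsum, hTl]
    simp_rw [hz]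
    rw [lintegral_indicator, setLIntegral_const]
    · calc H z * volume {y : Fin k → ℝ | ∑ i, |z i| + ∑ i, |y i| < 1}
          ≤ H z * (ENNReal.ofReal (2 ^ k / k.factorial) *
            ENNReal.ofReal (Real.exp (-(k * ∑ i, |z i|)))) := by
            gcongr
            exact vol_l1_le k _
        _ = _ := by ring
    · refine measurableSet_lt ?_ measurable_const
      fun_prop
  · exact ((hHm.indicator hS).comp hT.measurable).aemeasurable

/-- An injection extends to a bijection. -/
lemma exists_equiv {n k N : ℕ} (j : Fin n → Fin N) (hj : Function.Injective j)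
    (hN : n + k = N) : ∃ e : Fin n ⊕ Fin k ≃ Fin N, ∀ i, e (Sum.inl i) = j i := by
  classical
  have hcard : Fintype.card ((range j)ᶜ : Set (Fin N)) = Fintype.card (Fin k) := by
    rw [Fintype.card_compl_set]
    have : Fintype.card (range j) = n := by
      rw [Set.card_range_of_injective hj, Fintype.card_fin]
    rw [this]
    simp only [Fintype.card_fin]
    omega
  let e1 : Fin k ≃ ((range j)ᶜ : Set (Fin N)) := (Fintype.equivOfCardEq hcard).symm
  refine ⟨(Equiv.sumCongr (Equiv.ofInjective j hj) e1).trans (Equiv.Set.sumCompl (range j)), ?_⟩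
  intro i
  simp

/-- Scaling. -/
lemma lintegral_scale (n : ℕ) (r : ℝ) (hr : 0 < r) (F : (Fin n → ℝ) → ℝ≥0∞) (hF : Measurable F) :
    ∫⁻ z : Fin n → ℝ, F (r • z) = ENNReal.ofReal ((r ^ n)⁻¹) * ∫⁻ w, F w := by
  have h1 := Measure.map_addHaar_smul (volume : Measure (Fin n → ℝ)) hr.ne'
  have h2 : ∫⁻ z : Fin n → ℝ, F (r • z) = ∫⁻ w, F w ∂(Measure.map (fun x => r • x) volume) := by
    rw [lintegral_map hF (by fun_prop)]
  rw [h2, h1, lintegral_smul_measure, Module.finrank_fintype_fun_eq_card, Fintype.card_fin,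
    smul_eq_mul, abs_of_pos (by positivity)]

/-- Laplace distribution. -/
noncomputable def lap : Measure ℝ :=
  volume.withDensity (fun t => ENNReal.ofReal (Real.exp (-|t|) / 2))

lemma integrable_exp_abs : Integrable (fun t : ℝ => Real.exp (-|t|)) := by
  rw [← integrableOn_univ, ← Iic_union_Ioi (a := (0 : ℝ))]
  refine IntegrableOn.union ?_ ?_
  · refine (integrableOn_exp_mul_Iic (a := 1) one_pos 0).congr_fun ?_ measurableSet_Iic
    intro t ht
    have ht' : t ≤ 0 := ht
    simp only
    rw [abs_of_nonpos ht', neg_neg, one_mul]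
  · refine (integrableOn_exp_mul_Ioi (a := -1) (by norm_num) 0).congr_fun ?_ measurableSet_Ioi
    intro t ht
    have ht' : 0 < t := ht
    simp only
    rw [abs_of_pos ht']
    congr 1
    ring

lemma lap_apply (s : Set ℝ) (hs : MeasurableSet s) :
    lap s = ENNReal.ofReal (∫ t, s.indicator (fun t => Real.exp (-|t|) / 2) t) := by
  rw [lap, withDensity_apply _ hs, integral_indicator hs, ofReal_integral_eq_lintegral_ofReal]
  · exact (integrable_exp_abs.div_const 2).integrableOn
  · filter_upwards with t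
    positivity

lemma integral_exp_abs : ∫ t : ℝ, Real.exp (-|t|) = 2 := by
  have h := integrable_exp_abs
  rw [← intervalIntegral.integral_Iic_add_Ioi (b := 0) h.integrableOn h.integrableOn]
  have h1 : ∫ t in Iic (0 : ℝ), Real.exp (-|t|) = 1 := by
    rw [setIntegral_congr_fun (g := fun t : ℝ => Real.exp (1 * t)) measurableSet_Iic]
    · rw [integral_exp_mul_Iic one_pos]
      simp
    · intro t ht
      have ht' : t ≤ 0 := ht
      simp only
      rw [abs_of_nonpos ht', neg_neg, one_mul]
  have h2 : ∫ t in Ioi (0 : ℝ), Real.exp (-|t|) = 1 := by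
    rw [setIntegral_congr_fun (g := fun t : ℝ => Real.exp (-t)) measurableSet_Ioi]
    · exact integral_exp_neg_Ioi_zero
    · intro t ht
      have ht' : 0 < t := ht
      simp only
      rw [abs_of_pos ht']
  rw [h1, h2]
  norm_num

instance : IsProbabilityMeasure lap := by
  constructor
  rw [lap_apply _ MeasurableSet.univ]
  simp only [indicator_univ]
  rw [integral_div, integral_exp_abs]
  norm_num

/-- The product of Laplace distributions has the expected density. -/
lemma pi_lap (n : ℕ) : Measure.pi (fun _ : Fin n => lap) =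
    (volume : Measure (Fin n → ℝ)).withDensity
      (fun w => ENNReal.ofReal (Real.exp (-∑ i, |w i|) / 2 ^ n)) := by
  refine Measure.pi_eq fun s hs => ?_
  have hint : Integrable (fun w : Fin n → ℝ => ∏ i, (Real.exp (-|w i|) / 2)) :=
    Integrable.fintype_prod (μ := fun _ : Fin n => (volume : Measure ℝ))
      (f := fun i (t : ℝ) => Real.exp (-|t|) / 2) fun _ => integrable_exp_abs.div_const 2
  have hden : ∀ w : Fin n → ℝ, Real.exp (-∑ i, |w i|) / 2 ^ n = ∏ i, (Real.exp (-|w i|) / 2) := by
    intro w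
    rw [Finset.prod_div_distrib, ← Real.exp_sum, Finset.sum_neg_distrib]
    simp
  have hms := MeasurableSet.univ_pi hs
  rw [withDensity_apply _ hms]
  simp_rw [hden]
  rw [← ofReal_integral_eq_lintegral_ofReal hint.integrableOn
    (Eventually.of_forall fun w => Finset.prod_nonneg fun i _ => by positivity),
    ← integral_indicator hms]
  have hind : ∀ w : Fin n → ℝ, (pi univ s).indicator (fun w => ∏ i, (Real.exp (-|w i|) / 2)) w
      = ∏ i, (s i).indicator (fun t => Real.exp (-|t|) / 2) (w i) := by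
    intro w
    by_cases hw : w ∈ pi univ s
    · rw [indicator_of_mem hw]
      refine Finset.prod_congr rfl fun i _ => ?_
      rw [indicator_of_mem (hw i (mem_univ i))]
    · rw [indicator_of_notMem hw]
      simp only [Set.mem_pi, mem_univ, true_implies, not_forall] at hw
      obtain ⟨i, hi⟩ := hw
      symm
      refine Finset.prod_eq_zero (Finset.mem_univ i) ?_
      rw [indicator_of_notMem hi]
  simp_rw [hind]
  rw [integral_fintype_prod_volume_eq_prod
    (f := fun i (t : ℝ) => (s i).indicator (fun t => Real.exp (-|t|) / 2) t),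
    ENNReal.ofReal_prod_of_nonneg]
  · refine Finset.prod_congr rfl fun i _ => ?_
    rw [lap_apply _ (hs i)]
  · intro i _
    refine integral_nonneg fun t => ?_
    exact indicator_nonneg (fun t _ => by positivity) t

lemma lintegral_lap (n : ℕ) (K : (Fin n → ℝ) → ℝ≥0∞) (hK : Measurable K) :
    ∫⁻ w : Fin n → ℝ, K w * ENNReal.ofReal (Real.exp (-∑ i, |w i|)) =
      ENNReal.ofReal (2 ^ n) * ∫⁻ w, K w ∂(Measure.pi (fun _ : Fin n => lap)) := by
  rw [pi_lap, lintegral_withDensity_eq_lintegral_mul _ (by fun_prop) hK,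
    ← lintegral_const_mul' _ _ ENNReal.ofReal_ne_top]
  congr 1
  funext w
  simp only [Pi.mul_apply]
  rw [← mul_assoc, ← ENNReal.ofReal_mul (by positivity), mul_div_cancel₀ _ (by positivity),
    mul_comm]

/-- The form of the marginal estimate used later. -/
theorem marginal_lap {n k m N : ℕ} (hm : 0 < m) (hmk : m ≤ k) (e : Fin n ⊕ Fin k ≃ Fin N)
    (K : (Fin n → ℝ) → ℝ≥0∞) (hK : Measurable K) :
    ∫⁻ x : Fin N → ℝ in {x | ∑ i, |x i| < 1}, K (fun i => m * x (e (Sum.inl i))) ≤
      ENNReal.ofReal (2 ^ k / k.factorial * ((m : ℝ) ^ n)⁻¹ * 2 ^ n) *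
        ∫⁻ w, K w ∂(Measure.pi (fun _ : Fin n => lap)) := by
  have hm0 : (0 : ℝ) < m := by exact_mod_cast hm
  have h1 := marginal e (fun z => K (fun i => m * z i)) (hK.comp (by fun_prop))
  refine h1.trans ?_
  have h2 : ∫⁻ z : Fin n → ℝ, K (fun i => m * z i) *
      ENNReal.ofReal (Real.exp (-(k * ∑ i, |z i|))) ≤
      ∫⁻ z : Fin n → ℝ, (fun w => K w * ENNReal.ofReal (Real.exp (-∑ i, |w i|))) ((m : ℝ) • z) := by
    refine lintegral_mono fun z => ?_
    simp only
    have : ((m : ℝ) • z) = fun i => m * z i := by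
      funext i
      simp
    rw [this]
    gcongr
    have h3 : ∑ i, |(m : ℝ) * z i| = m * ∑ i, |z i| := by
      rw [Finset.mul_sum]
      refine Finset.sum_congr rfl fun i _ => ?_
      rw [abs_mul, abs_of_pos hm0]
    rw [h3]
    have h4 : (m : ℝ) ≤ k := by exact_mod_cast hmk
    have h5 : 0 ≤ ∑ i, |z i| := by positivity
    nlinarith
  have hFm : Measurable (fun w : Fin n → ℝ => K w * ENNReal.ofReal (Real.exp (-∑ i, |w i|))) :=
    hK.mul (by fun_prop)
  rw [lintegral_scale n m hm0 _ hFm, lintegral_lap n K hK] at h2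
  calc _ ≤ ENNReal.ofReal (2 ^ k / k.factorial) * (ENNReal.ofReal (((m : ℝ) ^ n)⁻¹) *
        (ENNReal.ofReal (2 ^ n) * ∫⁻ w, K w ∂(Measure.pi (fun _ : Fin n => lap)))) := by
        gcongr
    _ = _ := by
        rw [ENNReal.ofReal_mul (by positivity), ENNReal.ofReal_mul (by positivity)]
        ring

end Pool.H65.Kls
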