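import Mathlib
import Pool.Agent.H65.KlsMarginal

set_option autoImplicit false

open MeasureTheory Measure Set Filter Topology
open scoped ENNReal NNReal

namespace Pool.H65.Kls

/-- Slopes of the one-dimensional profile. -/
noncomputable def slope (h : ℝ) (K k : ℕ) : ℝ := Real.exp (h / 2 * ((min k K : ℕ) : ℝ))

/-- The derivative of the one-dimensional profile. -/
noncomputable def ds (h : ℝ) (K : ℕ) (x : ℝ) : ℝ := slope h K ⌊|x| / h⌋₊

/-- The one-dimensional profile. -/
noncomputable def ph (h : ℝ) (K : ℕ) (x : ℝ) : ℝ := ∫ t in (0 : ℝ)..x, ds h K t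

/-- The cell of a real number. -/
noncomputable def cl (h : ℝ) (x : ℝ) : Bool × ℕ := (decide (0 ≤ x), ⌊|x| / h⌋₊)

section

variable {h : ℝ} (hh : 0 < h) {K : ℕ}

lemma slope_pos (k : ℕ) : 0 < slope h K k := Real.exp_pos _

include hh in
lemma slope_le (k : ℕ) : slope h K k ≤ Real.exp (h / 2 * K) := by
  apply Real.exp_le_exp.mpr
  have : ((min k K : ℕ) : ℝ) ≤ K := by exact_mod_cast min_le_right k K
  gcongr

lemma ds_pos (x : ℝ) : 0 < ds h K x := slope_pos _

include hh in
lemma ds_le (x : ℝ) : ds h K x ≤ Real.exp (h / 2 * K) := slope_le hh _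

lemma ds_neg (x : ℝ) : ds h K (-x) = ds h K x := by simp [ds]

lemma ds_measurable : Measurable (ds h K) := by
  have h1 : Measurable (slope h K) := measurable_of_countable _
  have h2 : Measurable (fun x : ℝ => ⌊|x| / h⌋₊) := Nat.measurable_floor.comp (by fun_prop)
  exact h1.comp h2

include hh in
lemma ds_intervalIntegrable (a b : ℝ) : IntervalIntegrable (ds h K) volume a b := by
  rw [intervalIntegrable_iff]
  refine Measure.integrableOn_of_bounded (M := Real.exp (h / 2 * K)) (by simp)
    ds_measurable.aestronglyMeasurable ?_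
  filter_upwards with x
  rw [Real.norm_eq_abs, abs_of_pos (ds_pos x)]
  exact ds_le hh x

include hh in
lemma ph_continuous : Continuous (ph h K) :=
  intervalIntegral.continuous_primitive (fun a b => ds_intervalIntegrable hh a b) 0

lemma ph_neg (x : ℝ) : ph h K (-x) = -ph h K x := by
  unfold ph
  have h1 := intervalIntegral.integral_comp_neg (a := 0) (b := x) (ds h K)
  simp only [ds_neg, neg_zero] at h1
  rw [h1, ← intervalIntegral.integral_symm]

include hh in
lemma ph_sub (x y : ℝ) : ph h K y - ph h K x = ∫ t in x..y, ds h K t := by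
  unfold ph
  rw [intervalIntegral.integral_interval_sub_left (ds_intervalIntegrable hh _ _)
    (ds_intervalIntegrable hh _ _)]

include hh in
lemma cl_eq {x y t : ℝ} (hxy : cl h x = cl h y) (ht : t ∈ uIcc x y) :
    ds h K t = slope h K (cl h x).2 := by
  have h1 : (decide (0 ≤ x)) = (decide (0 ≤ y)) := congrArg Prod.fst hxy
  have h2 : ⌊|x| / h⌋₊ = ⌊|y| / h⌋₊ := congrArg Prod.snd hxy
  have key : ⌊|t| / h⌋₊ = ⌊|x| / h⌋₊ := by
    have hbet : (|x| ≤ |t| ∧ |t| ≤ |y|) ∨ (|y| ≤ |t| ∧ |t| ≤ |x|) := by
      rcases le_or_gt 0 x with hx | hx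
      · have hy : 0 ≤ y := by
          rw [decide_eq_true hx] at h1
          exact of_decide_eq_true h1.symm
        rw [mem_uIcc] at ht
        rcases ht with ht | ht
        · left
          rw [abs_of_nonneg hx, abs_of_nonneg hy, abs_of_nonneg (hx.trans ht.1)]
          exact ht
        · right
          rw [abs_of_nonneg hx, abs_of_nonneg hy, abs_of_nonneg (hy.trans ht.1)]
          exact ht
      · have hy : y < 0 := by
          by_contra hcon
          rw [not_lt] at hcon
          rw [decide_eq_false (not_le.mpr hx), decide_eq_true hcon] at h1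
          exact absurd h1 (by decide)
        rw [mem_uIcc] at ht
        rcases ht with ht | ht
        · right
          have ht0 : t < 0 := ht.2.trans_lt hy
          rw [abs_of_neg hx, abs_of_neg hy, abs_of_neg ht0]
          exact ⟨neg_le_neg ht.2, neg_le_neg ht.1⟩
        · left
          have ht0 : t < 0 := ht.2.trans_lt hx
          rw [abs_of_neg hx, abs_of_neg hy, abs_of_neg ht0]
          exact ⟨neg_le_neg ht.2, neg_le_neg ht.1⟩
    rcases hbet with hb | hb
    · refine le_antisymm ?_ ?_
      · rw [h2]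
        exact Nat.floor_le_floor (div_le_div_of_nonneg_right hb.2 hh.le)
      · exact Nat.floor_le_floor (div_le_div_of_nonneg_right hb.1 hh.le)
    · refine le_antisymm ?_ ?_
      · exact Nat.floor_le_floor (div_le_div_of_nonneg_right hb.2 hh.le)
      · rw [h2]
        exact Nat.floor_le_floor (div_le_div_of_nonneg_right hb.1 hh.le)
  rw [ds, key]
  rfl

include hh in
lemma ph_affine : ∃ β : Bool × ℕ → ℝ, ∀ x, ph h K x = slope h K (cl h x).2 * x + β (cl h x) := by
  classical
  refine ⟨fun c => if hc : ∃ x, cl h x = c then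
    ph h K hc.choose - slope h K c.2 * hc.choose else 0, ?_⟩
  intro x
  have hc : ∃ y, cl h y = cl h x := ⟨x, rfl⟩
  simp only [dif_pos hc]
  set y := hc.choose with hy
  have hyx : cl h y = cl h x := hc.choose_spec
  have h1 := ph_sub (K := K) hh y x
  have h2 : ∫ t in y..x, ds h K t = ∫ t in y..x, slope h K (cl h x).2 := by
    refine intervalIntegral.integral_congr fun t ht => ?_
    rw [cl_eq hh hyx ht, hyx]
  rw [h2, intervalIntegral.integral_const, smul_eq_mul] at h1
  linarith [h1, mul_comm (x - y) (slope h K (cl h x).2), mul_sub (slope h K (cl h x).2) x y]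

lemma cl_measurable (c : Bool × ℕ) : MeasurableSet {x | cl h x = c} := by
  have h2 : Measurable (fun x : ℝ => ⌊|x| / h⌋₊) := Nat.measurable_floor.comp (by fun_prop)
  have hset : {x | cl h x = c} = {x | decide (0 ≤ x) = c.1} ∩ {x | ⌊|x| / h⌋₊ = c.2} := by
    ext x
    simp only [cl, mem_ofPred_eq, mem_inter_iff]
    exact Prod.ext_iff
  rw [hset]
  refine MeasurableSet.inter ?_ (h2 (measurableSet_singleton c.2))
  cases hc : c.1 with
  | true =>
    simp only [decide_eq_true_eq]
    exact measurableSet_le measurable_const measurable_id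
  | false =>
    simp only [decide_eq_false_iff_not, not_le]
    exact measurableSet_lt measurable_id measurable_const

include hh in
lemma ph_abs_le (x : ℝ) : |ph h K x| ≤ Real.exp (h / 2 * K) * |x| := by
  have := intervalIntegral.norm_integral_le_of_norm_le_const (a := 0) (b := x) (f := ds h K)
    (C := Real.exp (h / 2 * K)) (fun t _ => by
      rw [Real.norm_eq_abs, abs_of_pos (ds_pos t)]
      exact ds_le hh t)
  simpa [ph] using this

/-! ### Moments under the Laplace distribution -/

lemma integral_lap (f : ℝ → ℝ) : ∫ t, f t ∂lap = ∫ t, f t * (Real.exp (-|t|) / 2) := by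
  rw [lap, integral_withDensity_eq_integral_toReal_smul (by fun_prop)
    (Eventually.of_forall fun _ => ENNReal.ofReal_lt_top)]
  congr 1
  funext t
  rw [ENNReal.toReal_ofReal (by positivity), smul_eq_mul, mul_comm]

lemma integrable_lap (f : ℝ → ℝ) :
    Integrable f lap ↔ Integrable (fun t => f t * (Real.exp (-|t|) / 2)) := by
  rw [lap, integrable_withDensity_iff (by fun_prop)
    (Eventually.of_forall fun _ => ENNReal.ofReal_lt_top)]
  refine integrable_congr (Eventually.of_forall fun t => ?_)
  dsimp only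
  rw [ENNReal.toReal_ofReal (by positivity)]

lemma integral_lap_even (f : ℝ → ℝ) (hf : ∀ t, f (-t) = f t) (hi : Integrable f lap) :
    ∫ t, f t ∂lap = ∫ t in Ioi (0 : ℝ), f t * Real.exp (-t) := by
  rw [integrable_lap] at hi
  rw [integral_lap, ← intervalIntegral.integral_Iic_add_Ioi (b := 0) hi.integrableOn
    hi.integrableOn]
  have h1 := integral_comp_neg_Ioi (f := fun t => f t * (Real.exp (-|t|) / 2)) (0 : ℝ)
  simp only [hf, abs_neg, neg_zero] at h1
  rw [← h1, ← two_mul, ← integral_const_mul]
  refine setIntegral_congr_fun measurableSet_Ioi fun t ht => ?_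
  have ht' : 0 < t := ht
  rw [abs_of_pos ht']
  ring

lemma integrable_sq_lap : Integrable (fun t : ℝ => t ^ 2) lap := by
  rw [integrable_lap]
  have h1 : Integrable (fun t : ℝ => 4 * Real.exp (-|1 / 2 * t|)) :=
    (integrable_exp_abs.comp_mul_left' (by norm_num)).const_mul 4
  refine h1.mono' (by fun_prop) ?_
  filter_upwards with t
  rw [Real.norm_eq_abs, abs_of_nonneg (by positivity)]
  have h2 : |1 / 2 * t| = |t| / 2 := by
    rw [abs_mul, abs_of_pos (by norm_num)]
    ring
  rw [h2]
  have h3 : Real.exp (-|t|) = Real.exp (-(|t| / 2)) * Real.exp (-(|t| / 2)) := by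
    rw [← Real.exp_add]
    congr 1
    ring
  rw [h3]
  have h4 : t ^ 2 * Real.exp (-(|t| / 2)) ≤ 8 := by
    have h5 : (|t| / 2) ^ 2 / 2 ≤ Real.exp (|t| / 2) := by
      have := Real.quadratic_le_exp_of_nonneg (x := |t| / 2) (by positivity)
      have h0 : 0 ≤ |t| / 2 := by positivity
      linarith
    have h6 : t ^ 2 ≤ 8 * Real.exp (|t| / 2) := by
      have : (|t| / 2) ^ 2 = t ^ 2 / 4 := by
        rw [div_pow, sq_abs]
        norm_num
      rw [this] at h5
      linarith
    calc t ^ 2 * Real.exp (-(|t| / 2)) ≤ 8 * Real.exp (|t| / 2) * Real.exp (-(|t| / 2)) := by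
          gcongr
      _ = 8 := by
          rw [mul_assoc, ← Real.exp_add]
          simp
  have h7 : 0 < Real.exp (-(|t| / 2)) := Real.exp_pos _
  nlinarith

include hh in
lemma ph_sq_integrable : Integrable (fun t => (ph h K t) ^ 2) lap := by
  refine (integrable_sq_lap.const_mul ((Real.exp (h / 2 * K)) ^ 2)).mono'
    ((ph_continuous hh).pow 2).aestronglyMeasurable ?_
  filter_upwards with t
  rw [Real.norm_eq_abs, abs_of_nonneg (by positivity), ← sq_abs (ph h K t), ← sq_abs t, ← mul_pow]
  exact pow_le_pow_left₀ (abs_nonneg _) (ph_abs_le hh t) 2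

include hh in
lemma ds_sq_le (t : ℝ) (ht : 0 < t) : (ds h K t) ^ 2 ≤ Real.exp (min t (h * K)) := by
  rw [ds, slope, ← Real.exp_nat_mul, abs_of_pos ht]
  apply Real.exp_le_exp.mpr
  have h1 : ((⌊t / h⌋₊ : ℕ) : ℝ) ≤ t / h := Nat.floor_le (by positivity)
  have h2 : ((min ⌊t / h⌋₊ K : ℕ) : ℝ) ≤ (⌊t / h⌋₊ : ℕ) := by exact_mod_cast min_le_left _ _
  have h3 : ((min ⌊t / h⌋₊ K : ℕ) : ℝ) ≤ K := by exact_mod_cast min_le_right _ _
  have h4 : h * ((min ⌊t / h⌋₊ K : ℕ) : ℝ) ≤ t := by
    calc h * ((min ⌊t / h⌋₊ K : ℕ) : ℝ) ≤ h * (t / h) := by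
          gcongr
          exact h2.trans h1
      _ = t := by field_simp
  have h5 : h * ((min ⌊t / h⌋₊ K : ℕ) : ℝ) ≤ h * K := by gcongr
  have h6 := le_min h4 h5
  push_cast at h6 ⊢
  linarith

include hh in
lemma ds_sq_integrable : Integrable (fun t => (ds h K t) ^ 2) lap := by
  refine Integrable.mono' (integrable_const ((Real.exp (h / 2 * K)) ^ 2))
    (ds_measurable.pow_const 2).aestronglyMeasurable ?_
  filter_upwards with t
  rw [Real.norm_eq_abs, abs_of_nonneg (by positivity)]
  exact pow_le_pow_left₀ (ds_pos t).le (ds_le hh t) 2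

include hh in
lemma ds_sq_integral : ∫ t, (ds h K t) ^ 2 ∂lap ≤ h * K + 1 := by
  have hi := ds_sq_integrable (K := K) hh
  rw [integral_lap_even _ (fun t => by rw [ds_neg]) hi]
  set R := h * K with hR
  have hR0 : 0 ≤ R := by positivity
  have hi2 : IntegrableOn (fun t => (ds h K t) ^ 2 * Real.exp (-t)) (Ioi 0) := by
    rw [integrable_lap] at hi
    refine ((hi.const_mul 2).integrableOn (s := Ioi 0)).congr_fun ?_ measurableSet_Ioi
    intro t ht
    have ht' : 0 < t := ht
    simp only
    rw [abs_of_pos ht']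
    ring
  have hU : Ioi (0 : ℝ) = Ioc 0 R ∪ Ioi R := (Ioc_union_Ioi_eq_Ioi hR0).symm
  rw [hU] at hi2 ⊢
  rw [setIntegral_union (by
    rw [disjoint_left]
    intro x hx hx'
    exact absurd hx.2 (not_le.mpr hx')) measurableSet_Ioi (hi2.mono_set subset_union_left)
    (hi2.mono_set subset_union_right)]
  refine add_le_add ?_ ?_
  · calc ∫ t in Ioc 0 R, (ds h K t) ^ 2 * Real.exp (-t) ≤ ∫ t in Ioc 0 R, (1 : ℝ) := by
          refine setIntegral_mono_on (hi2.mono_set subset_union_left) (by simp)
            measurableSet_Ioc fun t ht => ?_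
          calc (ds h K t) ^ 2 * Real.exp (-t) ≤ Real.exp t * Real.exp (-t) := by
                gcongr
                refine (ds_sq_le hh t ht.1).trans (Real.exp_le_exp.mpr (min_le_left _ _))
            _ = 1 := by rw [← Real.exp_add]; simp
      _ = R := by simp [hR0]
  · calc ∫ t in Ioi R, (ds h K t) ^ 2 * Real.exp (-t)
        ≤ ∫ t in Ioi R, Real.exp R * Real.exp (-t) := by
          refine setIntegral_mono_on (hi2.mono_set subset_union_right)
            ((integrableOn_exp_neg_Ioi R).const_mul _) measurableSet_Ioi fun t ht => ?_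
          gcongr
          exact (ds_sq_le hh t (hR0.trans_lt ht)).trans (Real.exp_le_exp.mpr (min_le_right _ _))
      _ = 1 := by
          rw [integral_const_mul, integral_exp_neg_Ioi, ← Real.exp_add]
          simp

include hh in
lemma ds_lower (t : ℝ) (ht : 0 ≤ t) (htR : t ≤ h * K) : Real.exp ((t - h) / 2) ≤ ds h K t := by
  rw [ds, slope, abs_of_nonneg ht]
  apply Real.exp_le_exp.mpr
  have h1 : t / h < (⌊t / h⌋₊ : ℕ) + 1 := Nat.lt_floor_add_one _
  have h2 : t / h - 1 ≤ ((min ⌊t / h⌋₊ K : ℕ) : ℝ) := by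
    rw [Nat.cast_min]
    refine le_min (by linarith) ?_
    have : t / h ≤ K := by
      rw [div_le_iff₀ hh]
      linarith
    linarith
  have h3 : h * (t / h - 1) ≤ h * ((min ⌊t / h⌋₊ K : ℕ) : ℝ) := by gcongr
  have h4 : h * (t / h - 1) = t - h := by field_simp
  rw [h4] at h3
  linarith

include hh in
lemma ph_lower (t : ℝ) (ht : 0 ≤ t) (htR : t ≤ h * K) :
    2 * Real.exp (-(h / 2)) * (Real.exp (t / 2) - 1) ≤ ph h K t := by
  have h1 : ∫ u in (0 : ℝ)..t, Real.exp ((u - h) / 2)
      = 2 * Real.exp (-(h / 2)) * (Real.exp (t / 2) - 1) := by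
    rw [intervalIntegral.integral_eq_sub_of_hasDerivAt
      (f := fun u => 2 * Real.exp ((u - h) / 2))]
    · have e1 : Real.exp ((t - h) / 2) = Real.exp (-(h / 2)) * Real.exp (t / 2) := by
        rw [← Real.exp_add]
        congr 1
        ring
      have e2 : Real.exp ((0 - h) / 2) = Real.exp (-(h / 2)) := by
        congr 1
        ring
      simp only [e1, e2]
      ring
    · intro u _
      have : HasDerivAt (fun u => 2 * Real.exp ((u - h) / 2))
          (2 * (Real.exp ((u - h) / 2) * (1 / 2))) u := by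
        exact ((((hasDerivAt_id u).sub_const h).div_const 2).exp).const_mul 2
      rw [show Real.exp ((u - h) / 2) = 2 * (Real.exp ((u - h) / 2) * (1 / 2)) by ring]
      exact this
    · exact (by fun_prop : Continuous fun u : ℝ => Real.exp ((u - h) / 2)).intervalIntegrable _ _
  rw [← h1, ph]
  refine intervalIntegral.integral_mono_on ht
    ((by fun_prop : Continuous fun u : ℝ => Real.exp ((u - h) / 2)).intervalIntegrable _ _)
    (ds_intervalIntegrable hh _ _) fun u hu => ?_
  exact ds_lower hh u hu.1 (hu.2.trans htR)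

include hh in
lemma ph_sq_integral : 4 * Real.exp (-h) * (h * K - 4) ≤ ∫ t, (ph h K t) ^ 2 ∂lap := by
  have hi := ph_sq_integrable (K := K) hh
  rw [integral_lap_even _ (fun t => by rw [ph_neg, neg_sq]) hi]
  set R := h * K with hR
  have hR0 : 0 ≤ R := by positivity
  have hi2 : IntegrableOn (fun t => (ph h K t) ^ 2 * Real.exp (-t)) (Ioi 0) := by
    rw [integrable_lap] at hi
    refine ((hi.const_mul 2).integrableOn (s := Ioi 0)).congr_fun ?_ measurableSet_Ioi
    intro t ht
    have ht' : 0 < t := ht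
    simp only
    rw [abs_of_pos ht']
    ring
  have h1 : ∫ t in Ioc 0 R, (ph h K t) ^ 2 * Real.exp (-t) ≤
      ∫ t in Ioi 0, (ph h K t) ^ 2 * Real.exp (-t) := by
    refine setIntegral_mono_set hi2 ?_ ?_
    · filter_upwards with t
      positivity
    · exact Eventually.of_forall Ioc_subset_Ioi_self
  refine le_trans ?_ h1
  have h2 : ∫ t in Ioc 0 R, 4 * Real.exp (-h) * (1 - 2 * Real.exp (-(t / 2))) ≤
      ∫ t in Ioc 0 R, (ph h K t) ^ 2 * Real.exp (-t) := by
    refine setIntegral_mono_on ?_ (hi2.mono_set Ioc_subset_Ioi_self) measurableSet_Ioc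
      fun t ht => ?_
    · exact (by fun_prop : Continuous fun t : ℝ =>
        4 * Real.exp (-h) * (1 - 2 * Real.exp (-(t / 2)))).integrableOn_Ioc
    · have h3 := ph_lower (K := K) hh t ht.1.le ht.2
      have h4 : 0 ≤ 2 * Real.exp (-(h / 2)) * (Real.exp (t / 2) - 1) := by
        have : 1 ≤ Real.exp (t / 2) := Real.one_le_exp (by linarith [ht.1])
        have := Real.exp_pos (-(h / 2))
        apply mul_nonneg (by positivity)
        linarith
      have h5 := pow_le_pow_left₀ h4 h3 2
      have h6 : (2 * Real.exp (-(h / 2)) * (Real.exp (t / 2) - 1)) ^ 2 * Real.exp (-t)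
          = 4 * Real.exp (-h) * (1 - 2 * Real.exp (-(t / 2)) + Real.exp (-t)) := by
        have e1 : Real.exp (-h) = Real.exp (-(h / 2)) * Real.exp (-(h / 2)) := by
          rw [← Real.exp_add]; congr 1; ring
        have e2 : Real.exp (-t) = Real.exp (-(t / 2)) * Real.exp (-(t / 2)) := by
          rw [← Real.exp_add]; congr 1; ring
        have e3 : Real.exp (t / 2) * Real.exp (-(t / 2)) = 1 := by
          rw [← Real.exp_add]; simp
        rw [e1, e2]
        linear_combination (4 * Real.exp (-(h / 2)) ^ 2 *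
          (Real.exp (t / 2) * Real.exp (-(t / 2)) + 1 - 2 * Real.exp (-(t / 2)))) * e3
      calc 4 * Real.exp (-h) * (1 - 2 * Real.exp (-(t / 2)))
          ≤ 4 * Real.exp (-h) * (1 - 2 * Real.exp (-(t / 2)) + Real.exp (-t)) := by
            gcongr
            linarith [Real.exp_pos (-t)]
        _ = _ := h6.symm
        _ ≤ _ := by gcongr
  refine le_trans ?_ h2
  rw [← intervalIntegral.integral_of_le hR0, intervalIntegral.integral_const_mul]
  gcongr
  rw [intervalIntegral.integral_eq_sub_of_hasDerivAt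
    (f := fun t => t + 4 * Real.exp (-(t / 2)))]
  · have := Real.exp_pos (-(R / 2))
    simp
    positivity
  · intro u _
    have : HasDerivAt (fun t => t + 4 * Real.exp (-(t / 2)))
        (1 + 4 * (Real.exp (-(u / 2)) * -(1 / 2))) u := by
      exact (hasDerivAt_id u).add (((((hasDerivAt_id u).div_const 2).neg).exp).const_mul 4)
    rw [show 1 - 2 * Real.exp (-(u / 2)) = 1 + 4 * (Real.exp (-(u / 2)) * -(1 / 2)) by ring]
    exact this
  · exact (by fun_prop : Continuous fun t : ℝ =>
      (1 - 2 * Real.exp (-(t / 2)))).intervalIntegrable _ _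

end

end Pool.H65.Kls
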