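import Mathlib
import Pool.Agent.H65.KlsOne

set_option autoImplicit false

open MeasureTheory Measure Set Filter Topology ProbabilityTheory
open scoped ENNReal NNReal

namespace Pool.H65.Kls

lemma gaussian_small_ball (v : ℝ≥0) (hv : v ≠ 0) (δ : ℝ) :
    gaussianReal 0 v (Icc (-δ) δ) ≤ ENNReal.ofReal (2 * δ / √(2 * Real.pi * v)) := by
  rw [gaussianReal_apply 0 hv]
  have hv' : (0 : ℝ) < v := by
    have := pos_iff_ne_zero.mpr hv
    exact_mod_cast this
  calc ∫⁻ x in Icc (-δ) δ, gaussianPDF 0 v x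
      ≤ ∫⁻ x in Icc (-δ) δ, ENNReal.ofReal ((√(2 * Real.pi * v))⁻¹) := by
        refine lintegral_mono fun x => ?_
        rw [gaussianPDF_def, gaussianPDFReal_def]
        apply ENNReal.ofReal_le_ofReal
        have h1 : Real.exp (-(x - 0) ^ 2 / (2 * v)) ≤ 1 := by
          rw [Real.exp_le_one_iff]
          apply div_nonpos_of_nonpos_of_nonneg
          · nlinarith [sq_nonneg (x - 0)]
          · positivity
        have h2 : 0 ≤ (√(2 * Real.pi * v))⁻¹ := by positivity
        nlinarith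
    _ = ENNReal.ofReal (2 * δ / √(2 * Real.pi * v)) := by
        rw [setLIntegral_const, Real.volume_Icc, ← ENNReal.ofReal_mul (by positivity)]
        congr 1
        rw [div_eq_mul_inv]
        ring

/-- Central limit theorem for odd functions of independent Laplace variables. -/
lemma clt_bound (f : ℝ → ℝ) (hf : Measurable f) (hodd : ∀ t, f (-t) = -f t)
    (hf2 : Integrable (fun t => (f t) ^ 2) lap) (hw : 0 < ∫ t, (f t) ^ 2 ∂lap)
    (δ : ℝ) (hδ : 0 < δ) (ε : ℝ) (hε : 0 < ε) :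
    ∀ᶠ n : ℕ in atTop, (Measure.pi (fun _ : Fin n => lap)) {x | |∑ i, f (x i)| ≤ δ * √n} ≤
      ENNReal.ofReal (2 * δ / √(2 * Real.pi * ∫ t, (f t) ^ 2 ∂lap) + ε) := by
  obtain ⟨Ω, mΩ, P, X, hXm, hXl, hXi, hP⟩ := exists_iid ℕ lap
  have hfL2 : MemLp f 2 lap := (memLp_two_iff_integrable_sq hf.aestronglyMeasurable).2 hf2
  have hmean : ∫ t, f t ∂lap = 0 := by
    rw [integral_lap]
    have h1 := integral_neg_eq_self (fun t => f t * (Real.exp (-|t|) / 2)) volume
    simp only [hodd, abs_neg, neg_mul] at h1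
    rw [integral_neg] at h1
    linarith
  have hYl : ∀ i, HasLaw (fun ω => f (X i ω)) (lap.map f) P := fun i =>
    HasLaw.fun_comp ⟨hf.aemeasurable, rfl⟩ (hXl i)
  have hYi : iIndepFun (fun i ω => f (X i ω)) P := hXi.comp (fun _ => f) (fun _ => hf)
  have hident : ∀ i : ℕ, IdentDistrib (fun ω => f (X i ω)) (fun ω => f (X 0 ω)) P P :=
    fun i => (hYl i).identDistrib (hYl 0)
  have hY2 : MemLp (fun ω => f (X 0 ω)) 2 P :=
    hfL2.comp_measurePreserving ((hXl 0).measurePreserving (hXm 0))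
  have hYmean : ∫ ω, f (X 0 ω) ∂P = 0 := by
    have := (hXl 0).integral_comp (f := f) hf.aestronglyMeasurable
    rw [hmean] at this
    exact this
  have hYvar : Var[fun ω => f (X 0 ω); P] = ∫ t, (f t) ^ 2 ∂lap := by
    rw [variance_eq_sub hY2, hYmean]
    have := (hXl 0).integral_comp (f := fun t => (f t) ^ 2) (hf.pow_const 2).aestronglyMeasurable
    simpa [Function.comp_def] using this
  set w := ∫ t, (f t) ^ 2 ∂lap with hwdef
  have hv0 : (w.toNNReal : ℝ≥0) ≠ 0 := by
    simpa using hw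
  have hclt := tendstoInDistribution_inv_sqrt_mul_sum_sub (P' := gaussianReal 0 w.toNNReal)
    (Y := id) (X := fun i ω => f (X i ω)) (P := P) (by rw [hYvar]; exact HasLaw.id) hY2 hYi hident
  have hport := ProbabilityMeasure.limsup_measure_closed_le_of_tendsto hclt.tendsto
    (F := Icc (-δ) δ) isClosed_Icc
  simp only [ProbabilityMeasure.coe_mk, Measure.map_id] at hport
  have hlt : gaussianReal 0 w.toNNReal (Icc (-δ) δ) <
      ENNReal.ofReal (2 * δ / √(2 * Real.pi * w) + ε) := by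
    refine (gaussian_small_ball _ hv0 δ).trans_lt ?_
    rw [Real.coe_toNNReal _ hw.le]
    rw [ENNReal.ofReal_lt_ofReal_iff (by positivity)]
    linarith
  have hev := eventually_lt_of_limsup_lt (hport.trans_lt hlt)
  filter_upwards [hev, eventually_gt_atTop 0] with n hn hn0
  refine le_trans (le_of_eq ?_) hn.le
  have hn0' : (0 : ℝ) < √n := Real.sqrt_pos.mpr (by exact_mod_cast hn0)
  have hmap : P.map (fun ω (i : Fin n) => X i ω) = Measure.pi (fun _ : Fin n => lap) := by
    have h1 : iIndepFun (fun (i : Fin n) => X i) P := hXi.precomp Fin.val_injective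
    have h2 := (iIndepFun_iff_map_fun_eq_pi_map (f := fun (i : Fin n) => X i) (μ := P)
      (fun i => (hXm i).aemeasurable)).1 h1
    rw [h2]
    congr 1
    funext i
    exact (hXl i).map_eq
  have hmeas : MeasurableSet {x : Fin n → ℝ | |∑ i, f (x i)| ≤ δ * √n} := by
    refine measurableSet_le ?_ measurable_const
    fun_prop
  rw [← hmap, Measure.map_apply (by fun_prop) hmeas, Measure.map_apply (by
    have : ∀ i, Measurable (fun ω => f (X i ω)) := fun i => hf.comp (hXm i)
    fun_prop) measurableSet_Icc]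
  congr 1
  ext ω
  simp only [mem_preimage, mem_ofPred_eq, mem_Icc, hYmean, mul_zero, sub_zero]
  rw [← Fin.sum_univ_eq_sum_range (fun i => f (X i ω)) n, ← abs_le, abs_mul,
    abs_of_pos (inv_pos.mpr hn0'), inv_mul_le_iff₀ hn0', mul_comm]

lemma sum_sq_bound (q : ℝ → ℝ) (hq : Measurable q) (M : ℝ) (hM : ∀ t, |q t| ≤ M)
    (hq0 : ∫ t, q t ∂lap = 0) (n : ℕ) :
    Integrable (fun x : Fin n → ℝ => (∑ i, q (x i)) ^ 2) (Measure.pi (fun _ : Fin n => lap)) ∧
    ∫ x, (∑ i, q (x i)) ^ 2 ∂(Measure.pi (fun _ : Fin n => lap)) = n * Var[q; lap] := by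
  have hqL : MemLp q 2 lap := by
    refine MemLp.of_bound hq.aestronglyMeasurable M ?_
    filter_upwards with t
    exact hM t
  have hev : ∀ i : Fin n, MeasurePreserving (Function.eval i) (Measure.pi (fun _ : Fin n => lap))
    lap := fun i => measurePreserving_eval _ i
  have hqi : ∀ i : Fin n, MemLp (fun x : Fin n → ℝ => q (x i)) 2
      (Measure.pi (fun _ : Fin n => lap)) := fun i => hqL.comp_measurePreserving (hev i)
  have hZ : MemLp (fun x : Fin n → ℝ => ∑ i, q (x i)) 2 (Measure.pi (fun _ : Fin n => lap)) :=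
    memLp_finsetSum _ fun i _ => hqi i
  have hmean : ∫ x, ∑ i, q (x i) ∂(Measure.pi (fun _ : Fin n => lap)) = 0 := by
    rw [integral_finsetSum _ fun i _ => (hqi i).integrable (by norm_num)]
    refine Finset.sum_eq_zero fun i _ => ?_
    have h1 : ∫ t, q t ∂(Measure.map (Function.eval i) (Measure.pi (fun _ : Fin n => lap))) =
        ∫ x : Fin n → ℝ, q (x i) ∂(Measure.pi (fun _ : Fin n => lap)) :=
      integral_map (hev i).measurable.aemeasurable hq.aestronglyMeasurable
    rw [(hev i).map_eq, hq0] at h1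
    exact h1.symm
  have hvar := variance_sum_pi (μ := fun _ : Fin n => lap) (X := fun _ => q) (fun _ => hqL)
  rw [Finset.sum_const, Finset.card_univ, Fintype.card_fin, nsmul_eq_mul] at hvar
  have hfun : (∑ i : Fin n, fun x : Fin n → ℝ => q (x i)) = fun x => ∑ i, q (x i) := by
    funext x
    simp
  rw [hfun, variance_eq_sub hZ, hmean] at hvar
  refine ⟨hZ.integrable_sq, ?_⟩
  rw [← hvar]
  simp

/-- Law of large numbers for the gradient. -/
lemma grad_bound (g : ℝ → ℝ) (hg : Measurable g) (M : ℝ) (hM : ∀ t, |g t| ≤ M)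
    (hv : 0 < ∫ t, (g t) ^ 2 ∂lap) :
    ∃ C : ℝ, ∀ n : ℕ, 0 < n → ∀ A : Set (Fin n → ℝ), MeasurableSet A →
      ∫⁻ x in A, ENNReal.ofReal (√(∑ i, (g (x i)) ^ 2)) ∂(Measure.pi (fun _ : Fin n => lap)) ≤
        ENNReal.ofReal (√n * √(∫ t, (g t) ^ 2 ∂lap)) * (Measure.pi (fun _ : Fin n => lap)) A +
          ENNReal.ofReal C := by
  set v := ∫ t, (g t) ^ 2 ∂lap with hvdef
  have hM0 : 0 ≤ M := (abs_nonneg _).trans (hM 0)
  have hgi : Integrable (fun t => (g t) ^ 2) lap := by
    refine Integrable.mono' (integrable_const (M ^ 2)) (hg.pow_const 2).aestronglyMeasurable ?_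
    filter_upwards with t
    rw [Real.norm_eq_abs, abs_of_nonneg (by positivity), ← sq_abs]
    exact pow_le_pow_left₀ (abs_nonneg _) (hM t) 2
  set q : ℝ → ℝ := fun t => (g t) ^ 2 - v with hq
  have hqm : Measurable q := (hg.pow_const 2).sub_const v
  have hqb : ∀ t, |q t| ≤ M ^ 2 + v := by
    intro t
    rw [hq, abs_le]
    have h1 : (g t) ^ 2 ≤ M ^ 2 := by
      rw [← sq_abs]
      exact pow_le_pow_left₀ (abs_nonneg _) (hM t) 2
    constructor
    · nlinarith [sq_nonneg (g t), sq_nonneg M]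
    · simp only
      linarith
  have hq0 : ∫ t, q t ∂lap = 0 := by
    rw [hq, integral_sub hgi (integrable_const _)]
    simp [← hvdef]
  set V := Var[q; lap] with hV
  have hV0 : 0 ≤ V := variance_nonneg _ _
  refine ⟨(V + 1) / (4 * √v), fun n hn A hA => ?_⟩
  obtain ⟨hZi, hZ⟩ := sum_sq_bound q hqm (M ^ 2 + v) hqb hq0 n
  set π := Measure.pi (fun _ : Fin n => lap) with hπ
  have hn' : (0 : ℝ) < n := by exact_mod_cast hn
  have hsn : 0 < √(n : ℝ) := Real.sqrt_pos.mpr hn'
  have hsv : 0 < √v := Real.sqrt_pos.mpr hv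
  have hpt : ∀ x : Fin n → ℝ, √(∑ i, (g (x i)) ^ 2) ≤
      √n * √v + (1 / (4 * √v)) * ((∑ i, q (x i)) ^ 2 / n + 1) := by
    intro x
    set Z := ∑ i, q (x i) with hZdef
    have hsum : ∑ i, (g (x i)) ^ 2 = n * v + Z := by
      rw [hZdef, hq]
      simp [Finset.sum_sub_distrib]
    have hsn2 : √(n : ℝ) ^ 2 = n := Real.sq_sqrt hn'.le
    have hsv2 : √v ^ 2 = v := Real.sq_sqrt hv.le
    set S := ∑ i, (g (x i)) ^ 2 with hS
    have hS0 : 0 ≤ S := by positivity
    have h1 : √S ≤ √n * √v + Z / (2 * √v * √n) := by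
      have h2 : √S ^ 2 = S := Real.sq_sqrt hS0
      have h3 : 0 ≤ (√S - √n * √v) ^ 2 := sq_nonneg _
      have h4 : 2 * √v * √n * √S ≤ 2 * √v * √n * (√n * √v) + Z := by
        nlinarith
      have h5 : 0 < 2 * √v * √n := by positivity
      calc √S = (2 * √v * √n * √S) / (2 * √v * √n) := by field_simp
        _ ≤ (2 * √v * √n * (√n * √v) + Z) / (2 * √v * √n) := by gcongr
        _ = _ := by field_simp
    have h6 : Z / (2 * √v * √n) ≤ (1 / (4 * √v)) * (Z ^ 2 / n + 1) := by
      have h7 : Z / √n ≤ (Z ^ 2 / n + 1) / 2 := by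
        have h8 : 0 ≤ (Z / √n - 1) ^ 2 := sq_nonneg _
        have h9 : (Z / √n) ^ 2 = Z ^ 2 / n := by rw [div_pow, hsn2]
        nlinarith
      calc Z / (2 * √v * √n) = (1 / (2 * √v)) * (Z / √n) := by field_simp
        _ ≤ (1 / (2 * √v)) * ((Z ^ 2 / n + 1) / 2) := by gcongr
        _ = _ := by field_simp; ring
    linarith
  calc ∫⁻ x in A, ENNReal.ofReal (√(∑ i, (g (x i)) ^ 2)) ∂π
      ≤ ∫⁻ x in A, (ENNReal.ofReal (√n * √v) +
          ENNReal.ofReal ((1 / (4 * √v)) * ((∑ i, q (x i)) ^ 2 / n + 1))) ∂π := by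
        refine lintegral_mono fun x => ?_
        rw [← ENNReal.ofReal_add (by positivity) (by positivity)]
        exact ENNReal.ofReal_le_ofReal (hpt x)
    _ = ENNReal.ofReal (√n * √v) * π A +
          ∫⁻ x in A, ENNReal.ofReal ((1 / (4 * √v)) * ((∑ i, q (x i)) ^ 2 / n + 1)) ∂π := by
        rw [lintegral_add_left measurable_const, setLIntegral_const]
    _ ≤ ENNReal.ofReal (√n * √v) * π A +
          ∫⁻ x, ENNReal.ofReal ((1 / (4 * √v)) * ((∑ i, q (x i)) ^ 2 / n + 1)) ∂π := by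
        exact add_le_add le_rfl (setLIntegral_le_lintegral _ _)
    _ = ENNReal.ofReal (√n * √v) * π A + ENNReal.ofReal ((V + 1) / (4 * √v)) := by
        congr 1
        have hint : Integrable (fun x : Fin n → ℝ =>
            (1 / (4 * √v)) * ((∑ i, q (x i)) ^ 2 / n + 1)) π :=
          ((hZi.div_const _).add (integrable_const _)).const_mul _
        rw [← ofReal_integral_eq_lintegral_ofReal hint
          (Eventually.of_forall fun x => by positivity)]
        congr 1
        rw [integral_const_mul, integral_add (hZi.div_const _) (integrable_const _),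
          integral_div, hZ, ← hV]
        simp only [integral_const, probReal_univ, smul_eq_mul, mul_one]
        field_simp

/-- The choice of the one-dimensional profile. -/
lemma exists_profile (c : ℝ) (hc : 0 < c) (hc2 : c < √2) :
    ∃ (h : ℝ) (_ : 0 < h) (K : ℕ), 0 < ∫ t, (ph h K t) ^ 2 ∂lap ∧ 0 < ∫ t, (ds h K t) ^ 2 ∂lap ∧
      2 * c ^ 2 * (∫ t, (ds h K t) ^ 2 ∂lap) < ∫ t, (ph h K t) ^ 2 ∂lap := by
  have hc3 : c ^ 2 < 2 := by
    have := Real.sq_sqrt (show (0 : ℝ) ≤ 2 by norm_num)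
    nlinarith
  -- choose `h`
  obtain ⟨h, hh, hhc⟩ : ∃ h : ℝ, 0 < h ∧ c ^ 2 / 2 < Real.exp (-h) := by
    have h1 : Tendsto (fun h : ℝ => Real.exp (-h)) (𝓝[>] 0) (𝓝 1) := by
      have : Continuous (fun h : ℝ => Real.exp (-h)) := by fun_prop
      have h2 := this.tendsto 0
      simp only [neg_zero, Real.exp_zero] at h2
      exact h2.mono_left nhdsWithin_le_nhds
    have h3 := (h1.eventually (lt_mem_nhds (show c ^ 2 / 2 < 1 by linarith))).and
      self_mem_nhdsWithin
    obtain ⟨h, h4, h5⟩ := h3.exists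
    exact ⟨h, h5, h4⟩
  set a := Real.exp (-h) with ha
  have ha0 : 0 < a := Real.exp_pos _
  -- choose `K`
  obtain ⟨K, hK⟩ := exists_nat_gt ((4 * a + c ^ 2 / 2 + 1) / (a - c ^ 2 / 2) / h + 5 / h)
  have hd : 0 < a - c ^ 2 / 2 := by linarith
  have hKR : (4 * a + c ^ 2 / 2 + 1) / (a - c ^ 2 / 2) + 5 < h * K := by
    have : h * ((4 * a + c ^ 2 / 2 + 1) / (a - c ^ 2 / 2) / h + 5 / h) < h * K := by gcongr
    have e : h * ((4 * a + c ^ 2 / 2 + 1) / (a - c ^ 2 / 2) / h + 5 / h) =
        (4 * a + c ^ 2 / 2 + 1) / (a - c ^ 2 / 2) + 5 := by field_simp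
    linarith
  have hpos : 0 ≤ (4 * a + c ^ 2 / 2 + 1) / (a - c ^ 2 / 2) := by positivity
  have hR1 : (4 * a + c ^ 2 / 2 + 1) < (h * K) * (a - c ^ 2 / 2) := by
    rw [← div_lt_iff₀ hd]
    linarith
  have hR2 : 5 < h * K := by linarith
  have hp := ph_sq_integral (K := K) hh
  have hs := ds_sq_integral (K := K) hh
  rw [← ha] at hp
  have hp0 : 0 < ∫ t, (ph h K t) ^ 2 ∂lap := by
    refine lt_of_lt_of_le ?_ hp
    have : 0 < h * K - 4 := by linarith
    positivity
  have hs0 : 0 < ∫ t, (ds h K t) ^ 2 ∂lap := by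
    have h1 : ∫ _t, (1 : ℝ) ∂lap ≤ ∫ t, (ds h K t) ^ 2 ∂lap := by
      refine integral_mono (integrable_const _) (ds_sq_integrable hh) fun t => ?_
      have : 1 ≤ ds h K t := by
        rw [ds, slope, Real.one_le_exp_iff]
        positivity
      simp only
      nlinarith
    simp only [integral_const, probReal_univ, smul_eq_mul, mul_one] at h1
    linarith
  refine ⟨h, hh, K, hp0, hs0, ?_⟩
  calc 2 * c ^ 2 * (∫ t, (ds h K t) ^ 2 ∂lap) ≤ 2 * c ^ 2 * (h * K + 1) := by gcongr
    _ < 4 * a * (h * K - 4) := by nlinarith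
    _ ≤ _ := hp

/-- Main asymptotic estimate for independent Laplace variables. -/
lemma exists_laplace (c : ℝ) (hc : 0 < c) (hc2 : c < √2) :
    ∃ (h : ℝ) (_ : 0 < h) (K : ℕ) (n : ℕ) (D : ℝ), 0 < n ∧ 0 < D ∧
      (∫⁻ x in {x : Fin n → ℝ | |∑ i, ph h K (x i)| < D},
        ENNReal.ofReal (√(∑ i, (ds h K (x i)) ^ 2)) ∂(Measure.pi (fun _ : Fin n => lap))) +
        ENNReal.ofReal D * (Measure.pi (fun _ : Fin n => lap))
          {x : Fin n → ℝ | |∑ i, ph h K (x i)| ≤ D} <
      ENNReal.ofReal (D / (√Real.pi * c)) := by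
  obtain ⟨h, hh, K, hw, hv, hvw⟩ := exists_profile c hc hc2
  set w := ∫ t, (ph h K t) ^ 2 ∂lap with hwdef
  set v := ∫ t, (ds h K t) ^ 2 ∂lap with hvdef
  have hpi := Real.pi_pos
  have hsw : 0 < √w := Real.sqrt_pos.mpr hw
  have hsv : 0 < √v := Real.sqrt_pos.mpr hv
  have hspi : 0 < √Real.pi := Real.sqrt_pos.mpr hpi
  -- the limiting inequality
  have hlim : √2 * c * √v < √w := by
    have h1 : (√2 * c * √v) ^ 2 < (√w) ^ 2 := by
      rw [mul_pow, mul_pow, Real.sq_sqrt (by norm_num), Real.sq_sqrt hv.le, Real.sq_sqrt hw.le]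
      exact hvw
    exact lt_of_pow_lt_pow_left₀ 2 hsw.le h1
  obtain ⟨δ, hδ, hδ2⟩ : ∃ δ : ℝ, 0 < δ ∧ √2 * c * (√v + δ) < √w := by
    have h1 : 0 < √w - √2 * c * √v := by linarith
    have h2 : 0 < √2 * c := by positivity
    refine ⟨(√w - √2 * c * √v) / (2 * (√2 * c)), by positivity, ?_⟩
    have h3 : √2 * c * (√v + (√w - √2 * c * √v) / (2 * (√2 * c))) =
        √2 * c * √v + (√w - √2 * c * √v) / 2 := by
      field_simp
    rw [h3]
    linarith
  -- choose `ε`
  have hs2w : √(2 * Real.pi * w) = √2 * √Real.pi * √w := by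
    rw [Real.sqrt_mul (by positivity), Real.sqrt_mul (by positivity)]
  have hlim2 : (√v + δ) * (2 * δ / √(2 * Real.pi * w)) < δ / (√Real.pi * c) := by
    rw [hs2w]
    have h2 : √(2 : ℝ) * √2 = 2 := Real.mul_self_sqrt (by norm_num)
    rw [← mul_div_assoc, div_lt_div_iff₀ (by positivity) (by positivity)]
    have h3 : (√v + δ) * (2 * δ) * (√Real.pi * c) =
        (√2 * c * (√v + δ)) * (√2 * δ * √Real.pi) := by
      linear_combination (-(√v + δ) * δ * √Real.pi * c) * h2
    rw [h3]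
    calc (√2 * c * (√v + δ)) * (√2 * δ * √Real.pi) < √w * (√2 * δ * √Real.pi) := by
          gcongr
      _ = _ := by ring
  set p0 := 2 * δ / √(2 * Real.pi * w) with hp0
  obtain ⟨ε, hε, hε2⟩ : ∃ ε : ℝ, 0 < ε ∧ (√v + δ) * (p0 + ε) < δ / (√Real.pi * c) := by
    have h1 : 0 < δ / (√Real.pi * c) - (√v + δ) * p0 := by linarith
    have h2 : 0 < √v + δ := by positivity
    refine ⟨(δ / (√Real.pi * c) - (√v + δ) * p0) / (2 * (√v + δ)), by positivity, ?_⟩
    have h3 : (√v + δ) * (p0 + (δ / (√Real.pi * c) - (√v + δ) * p0) / (2 * (√v + δ))) =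
        (√v + δ) * p0 + (δ / (√Real.pi * c) - (√v + δ) * p0) / 2 := by
      field_simp
    rw [h3]
    linarith
  obtain ⟨C, hC⟩ := grad_bound (ds h K) ds_measurable (Real.exp (h / 2 * K)) (fun t => by
    rw [abs_of_pos (ds_pos t)]; exact ds_le hh t) hv
  have hclt := clt_bound (ph h K) (ph_continuous hh).measurable ph_neg (ph_sq_integrable hh) hw
    δ hδ ε hε
  rw [← hwdef, ← hp0] at hclt
  -- choose `n`
  have hCn : ∀ᶠ n : ℕ in atTop, (√v + δ) * (p0 + ε) + (|C| + 1) / √n < δ / (√Real.pi * c) := by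
    have h1 : Tendsto (fun n : ℕ => (√v + δ) * (p0 + ε) + (|C| + 1) / √n) atTop
        (𝓝 ((√v + δ) * (p0 + ε) + 0)) := by
      refine tendsto_const_nhds.add ?_
      exact tendsto_const_nhds.div_atTop
        (Real.tendsto_sqrt_atTop.comp tendsto_natCast_atTop_atTop)
    rw [add_zero] at h1
    exact h1.eventually (gt_mem_nhds hε2)
  obtain ⟨n, hn1, hn2, hn0⟩ := (hclt.and (hCn.and (eventually_gt_atTop 0))).exists
  have hn' : (0 : ℝ) < n := by exact_mod_cast hn0
  have hsn : 0 < √(n : ℝ) := Real.sqrt_pos.mpr hn'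
  refine ⟨h, hh, K, n, δ * √n, hn0, by positivity, ?_⟩
  set π := Measure.pi (fun _ : Fin n => lap) with hπ
  have hphm : Measurable (fun x : Fin n → ℝ => |∑ i, ph h K (x i)|) := by
    have := (ph_continuous (K := K) hh).measurable
    fun_prop
  have hA : MeasurableSet {x : Fin n → ℝ | |∑ i, ph h K (x i)| < δ * √n} :=
    measurableSet_lt hphm measurable_const
  have h1 := hC n hn0 _ hA
  have hp0' : 0 ≤ p0 := by positivity
  have h2 : π {x : Fin n → ℝ | |∑ i, ph h K (x i)| < δ * √n} ≤ ENNReal.ofReal (p0 + ε) := by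
    refine le_trans (measure_mono fun x hx => ?_) hn1
    have hx' : |∑ i, ph h K (x i)| < δ * √n := hx
    exact hx'.le
  calc _ ≤ (ENNReal.ofReal (√n * √v) * ENNReal.ofReal (p0 + ε) + ENNReal.ofReal |C|) +
        ENNReal.ofReal (δ * √n) * ENNReal.ofReal (p0 + ε) := by
        gcongr
        refine h1.trans ?_
        gcongr
        exact le_abs_self C
    _ = ENNReal.ofReal ((√n * √v) * (p0 + ε) + |C| + δ * √n * (p0 + ε)) := by
        rw [← ENNReal.ofReal_mul (by positivity), ← ENNReal.ofReal_mul (by positivity),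
          ← ENNReal.ofReal_add (by positivity) (by positivity),
          ← ENNReal.ofReal_add (by positivity) (by positivity)]
    _ < ENNReal.ofReal (δ * √n / (√Real.pi * c)) := by
        rw [ENNReal.ofReal_lt_ofReal_iff (by positivity)]
        have h3 : ((√v + δ) * (p0 + ε) + (|C| + 1) / √n) * √n < (δ / (√Real.pi * c)) * √n := by
          gcongr
        have h4 : ((√v + δ) * (p0 + ε) + (|C| + 1) / √n) * √n =
            (√v + δ) * (p0 + ε) * √n + (|C| + 1) := by
          field_simp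
        have h5 : (δ / (√Real.pi * c)) * √n = δ * √n / (√Real.pi * c) := by ring
        rw [h4, h5] at h3
        refine lt_trans ?_ h3
        have := abs_nonneg C
        nlinarith

end Pool.H65.Kls
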