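import Mathlib

set_option autoImplicit false

open MeasureTheory Measure Set Filter Topology
open scoped ENNReal NNReal

namespace Pool.H65.Kls

/-- Adding a first coordinate `0`. -/
noncomputable def cons0 (n : ℕ) :
    EuclideanSpace ℝ (Fin n) →ₗᵢ[ℝ] EuclideanSpace ℝ (Fin (n + 1)) where
  toFun y := WithLp.toLp 2 (Fin.cons 0 (fun i => y i))
  map_add' x y := by
    ext i
    refine Fin.cases ?_ (fun j => ?_) i <;> simp
  map_smul' c x := by
    ext i
    refine Fin.cases ?_ (fun j => ?_) i <;> simp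
  norm_map' y := by
    simp only [LinearMap.coe_mk, AddHom.coe_mk]
    rw [EuclideanSpace.norm_eq, EuclideanSpace.norm_eq, Fin.sum_univ_succ]
    simp

lemma cons0_apply {n : ℕ} (y : EuclideanSpace ℝ (Fin n)) :
    cons0 n y = WithLp.toLp 2 (Fin.cons 0 (fun i => y i)) := rfl

lemma measurePreserving_cons (n : ℕ) :
    MeasurePreserving (fun p : ℝ × EuclideanSpace ℝ (Fin n) =>
        p.1 • (EuclideanSpace.single (0 : Fin (n + 1)) (1 : ℝ)) + cons0 n p.2)
      (volume.prod volume) volume := by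
  have h1 := PiLp.volume_preserving_toLp (Fin (n + 1))
  have h2 := (volume_preserving_piFinSuccAbove (fun _ : Fin (n + 1) => ℝ) 0).symm
  have h3 := PiLp.volume_preserving_ofLp (Fin n)
  have h4 := (MeasurePreserving.id (volume : Measure ℝ)).prod h3
  have h5 := h1.comp (h2.comp h4)
  have hfun : (fun p : ℝ × EuclideanSpace ℝ (Fin n) =>
        p.1 • (EuclideanSpace.single (0 : Fin (n + 1)) (1 : ℝ)) + cons0 n p.2) =
      (WithLp.toLp 2 ∘ ⇑(MeasurableEquiv.piFinSuccAbove (fun _ : Fin (n + 1) => ℝ) 0).symm ∘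
        Prod.map id WithLp.ofLp) := by
    funext p
    ext i
    refine Fin.cases ?_ (fun j => ?_) i
    · simp [cons0_apply, MeasurableEquiv.piFinSuccAbove]
    · simp [cons0_apply, MeasurableEquiv.piFinSuccAbove]
  rw [hfun]
  exact h5

/-- Coordinates adapted to a unit vector. -/
lemma exists_slice {n : ℕ} (e : EuclideanSpace ℝ (Fin (n + 1))) (he : ‖e‖ = 1) :
    ∃ ι : EuclideanSpace ℝ (Fin n) →ₗᵢ[ℝ] EuclideanSpace ℝ (Fin (n + 1)),
      (∀ y, inner ℝ e (ι y) = 0) ∧
      (∀ x, ∃ y, x = (inner ℝ e x : ℝ) • e + ι y) ∧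
      MeasurePreserving (fun p : ℝ × EuclideanSpace ℝ (Fin n) => p.1 • e + ι p.2)
        (volume.prod volume) volume := by
  set e0 : EuclideanSpace ℝ (Fin (n + 1)) := EuclideanSpace.single 0 1 with he0
  have hn : ‖e0‖ = ‖e‖ := by simp [he0, he]
  let R : EuclideanSpace ℝ (Fin (n + 1)) ≃ₗᵢ[ℝ] EuclideanSpace ℝ (Fin (n + 1)) :=
    (ℝ ∙ (e0 - e))ᗮ.reflection
  have hR : R e0 = e := Submodule.reflection_sub hn
  have hin : ∀ y, inner ℝ e (R (cons0 n y)) = 0 := by
    intro y
    rw [← hR, R.inner_map_map, he0]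
    simp [EuclideanSpace.inner_single_left, cons0_apply]
  refine ⟨R.toLinearIsometry.comp (cons0 n), hin, ?_, ?_⟩
  · intro x
    set z := R.symm x with hz
    refine ⟨WithLp.toLp 2 (fun i => z i.succ), ?_⟩
    have hx : x = R z := by simp [hz]
    have h1 : inner ℝ e x = z 0 := by
      rw [hx, ← hR, R.inner_map_map, he0]
      simp [EuclideanSpace.inner_single_left]
    rw [h1]
    have h2 : z = z 0 • e0 + cons0 n (WithLp.toLp 2 (fun i => z i.succ)) := by
      ext i
      refine Fin.cases ?_ (fun j => ?_) i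
      · simp [cons0_apply, he0]
      · simp [cons0_apply, he0]
    calc x = R z := hx
      _ = R (z 0 • e0 + cons0 n (WithLp.toLp 2 (fun i => z i.succ))) := by rw [← h2]
      _ = _ := by simp [hR]
  · have h1 := (LinearIsometryEquiv.measurePreserving R).comp (measurePreserving_cons n)
    have hfun : (fun p : ℝ × EuclideanSpace ℝ (Fin n) =>
          p.1 • e + (R.toLinearIsometry.comp (cons0 n)) p.2) =
        (⇑R ∘ fun p : ℝ × EuclideanSpace ℝ (Fin n) => p.1 • e0 + (cons0 n) p.2) := by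
      funext p
      simp [hR]
    rw [hfun]
    exact h1

section slices

variable {n : ℕ} {e : EuclideanSpace ℝ (Fin (n + 1))}
  {ι : EuclideanSpace ℝ (Fin n) →ₗᵢ[ℝ] EuclideanSpace ℝ (Fin (n + 1))}

lemma slice_haus (he : ‖e‖ = 1) (h0 : ∀ y, inner ℝ e (ι y) = 0)
    (h1 : ∀ x, ∃ y, x = (inner ℝ e x : ℝ) • e + ι y)
    (A : Set (EuclideanSpace ℝ (Fin (n + 1)))) (u : ℝ) :
    μHE[n] {x | x ∈ A ∧ inner ℝ e x = u} = volume {y | u • e + ι y ∈ A} := by
  have hiso : Isometry (fun y => u • e + ι y) := by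
    refine Isometry.of_dist_eq fun x y => ?_
    rw [dist_add_left]
    exact ι.dist_map x y
  have himg : {x | x ∈ A ∧ inner ℝ e x = u} = (fun y => u • e + ι y) '' {y | u • e + ι y ∈ A} := by
    ext x
    simp only [mem_ofPred_eq, mem_image]
    constructor
    · rintro ⟨hx, hu⟩
      obtain ⟨y, hy⟩ := h1 x
      rw [hu] at hy
      exact ⟨y, hy ▸ hx, hy.symm⟩
    · rintro ⟨y, hy, rfl⟩
      refine ⟨hy, ?_⟩
      rw [inner_add_right, inner_smul_right, real_inner_self_eq_norm_sq, he, h0]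
      simp
  rw [himg, hiso.euclideanHausdorffMeasure_image,
    EuclideanSpace.euclideanHausdorffMeasure_eq_volume]

lemma slice_vol
    (hm : MeasurePreserving (fun p : ℝ × EuclideanSpace ℝ (Fin n) => p.1 • e + ι p.2)
        (volume.prod volume) volume)
    (A : Set (EuclideanSpace ℝ (Fin (n + 1)))) (hA : MeasurableSet A) :
    volume A = ∫⁻ u : ℝ, volume {y | u • e + ι y ∈ A} := by
  rw [← hm.measure_preimage hA.nullMeasurableSet, Measure.prod_apply (hm.measurable hA)]
  rfl

lemma slice_meas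
    (hm : MeasurePreserving (fun p : ℝ × EuclideanSpace ℝ (Fin n) => p.1 • e + ι p.2)
        (volume.prod volume) volume)
    (A : Set (EuclideanSpace ℝ (Fin (n + 1)))) (hA : MeasurableSet A) :
    Measurable (fun u : ℝ => volume {y | u • e + ι y ∈ A}) :=
  measurable_measure_prodMk_left (hm.measurable hA)

end slices

/-- Affine change of variables on the line. -/
lemma lintegral_affine (F : ℝ → ℝ≥0∞) (hF : Measurable F) (r b : ℝ) (hr : 0 < r) :
    ∫⁻ t, F ((t - b) / r) = ENNReal.ofReal r * ∫⁻ u, F u := by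
  have h1 : ∫⁻ t, F ((t - b) / r) = ∫⁻ t, F (t / r) := by
    have := lintegral_sub_right_eq_self (μ := (volume : Measure ℝ)) (fun t => F (t / r)) b
    exact this
  rw [h1]
  have h2 := Real.map_volume_mul_left (a := r⁻¹) (by positivity)
  have h3 : ∫⁻ t, F (t / r) = ∫⁻ u, F u ∂(Measure.map (fun x => r⁻¹ * x) volume) := by
    rw [lintegral_map hF (by fun_prop)]
    congr 1
    funext t
    congr 1
    field_simp
  rw [h3, h2, lintegral_smul_measure, inv_inv, abs_of_pos hr, smul_eq_mul]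

/-- The coarea formula for an affine function. -/
lemma coarea_affine {n : ℕ} (s : EuclideanSpace ℝ (Fin (n + 1))) (hs : s ≠ 0) (b : ℝ)
    (A : Set (EuclideanSpace ℝ (Fin (n + 1)))) (hA : MeasurableSet A) :
    Measurable (fun t : ℝ => μHE[n] {x | x ∈ A ∧ inner ℝ s x + b = t}) ∧
    ∫⁻ t : ℝ, μHE[n] {x | x ∈ A ∧ inner ℝ s x + b = t} = ENNReal.ofReal ‖s‖ * volume A := by
  have hs' : 0 < ‖s‖ := norm_pos_iff.mpr hs
  set e := (‖s‖⁻¹ : ℝ) • s with he
  have hen : ‖e‖ = 1 := by
    rw [he, norm_smul, norm_inv, norm_norm, inv_mul_cancel₀ hs'.ne']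
  obtain ⟨ι, h0, h1, hm⟩ := exists_slice e hen
  have hset : ∀ t : ℝ, μHE[n] {x | x ∈ A ∧ inner ℝ s x + b = t}
      = volume {y | ((t - b) / ‖s‖) • e + ι y ∈ A} := by
    intro t
    rw [← slice_haus hen h0 h1 A]
    congr 1
    ext x
    simp only [mem_ofPred_eq, he, inner_smul_left, RCLike.conj_to_real]
    refine and_congr_right fun _ => ?_
    rw [eq_div_iff hs'.ne']
    constructor
    · intro h
      field_simp
      linarith
    · intro h
      field_simp at h
      linarith
  have hmeas := slice_meas hm A hA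
  constructor
  · simp_rw [hset]
    exact hmeas.comp (by fun_prop : Measurable (fun t : ℝ => (t - b) / ‖s‖))
  · simp_rw [hset]
    rw [lintegral_affine (fun u => volume {y | u • e + ι y ∈ A}) hmeas ‖s‖ b hs',
      slice_vol hm A hA]

end Pool.H65.Kls
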