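import Mathlib
import Pool.Agent.H65.KlsSlice

set_option autoImplicit false

open MeasureTheory Measure Set Filter Topology
open scoped ENNReal NNReal

namespace Pool.H65.Kls

/-- Affine hyperplanes are null. -/
lemma volume_hyper {n : ℕ} (s : EuclideanSpace ℝ (Fin (n + 1))) (hs : s ≠ 0) (b t : ℝ) :
    volume {x : EuclideanSpace ℝ (Fin (n + 1)) | inner ℝ s x + b = t} = 0 := by
  have hs' : 0 < ‖s‖ := norm_pos_iff.mpr hs
  set e := (‖s‖⁻¹ : ℝ) • s with he
  have hen : ‖e‖ = 1 := by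
    rw [he, norm_smul, norm_inv, norm_norm, inv_mul_cancel₀ hs'.ne']
  obtain ⟨ι, h0, h1, hm⟩ := exists_slice e hen
  have hA : MeasurableSet {x : EuclideanSpace ℝ (Fin (n + 1)) | inner ℝ s x + b = t} := by
    have : Continuous (fun x : EuclideanSpace ℝ (Fin (n + 1)) => inner ℝ s x + b) := by fun_prop
    exact this.measurable (measurableSet_singleton t)
  rw [slice_vol hm _ hA]
  have hz : ∀ᵐ u : ℝ, volume {y | u • e + ι y ∈
      {x : EuclideanSpace ℝ (Fin (n + 1)) | inner ℝ s x + b = t}} = 0 := by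
    have : ∀ᵐ u : ℝ, u ≠ (t - b) / ‖s‖ := by
      simp [ae_iff]
    filter_upwards [this] with u hu
    have hempty : {y | u • e + ι y ∈
      {x : EuclideanSpace ℝ (Fin (n + 1)) | inner ℝ s x + b = t}} = ∅ := by
      ext y
      simp only [mem_ofPred_eq, mem_empty_iff_false, iff_false]
      intro h
      apply hu
      have h2 : inner ℝ s (u • e + ι y) = u * ‖s‖ := by
        have hse : s = ‖s‖ • e := by
          rw [he, smul_smul, mul_inv_cancel₀ hs'.ne', one_smul]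
        rw [hse, inner_smul_left, inner_add_right, inner_smul_right,
          real_inner_self_eq_norm_sq, hen, h0]
        simp only [RCLike.conj_to_real]
        rw [← hse]
        ring
      rw [h2] at h
      rw [eq_div_iff hs'.ne']
      linarith
    exact (congrArg volume hempty).trans measure_empty
  rw [lintegral_congr_ae hz, lintegral_zero]

section pw

variable {n : ℕ} {C : Type*} [Countable C]
  {cell : EuclideanSpace ℝ (Fin (n + 1)) → C} (hcell : ∀ c, MeasurableSet {x | cell x = c})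
  {s : C → EuclideanSpace ℝ (Fin (n + 1))} (hs : ∀ c, s c ≠ 0) {b : C → ℝ}

include hcell hs

/-- The coarea inequality for piecewise affine functions. -/
lemma coarea_pw (A : Set (EuclideanSpace ℝ (Fin (n + 1)))) (hA : MeasurableSet A) :
    ∃ G : ℝ → ℝ≥0∞, Measurable G ∧
      (∀ t, μHE[n] {x | x ∈ A ∧ inner ℝ (s (cell x)) x + b (cell x) = t} ≤ G t) ∧
      ∫⁻ t, G t = ∫⁻ x in A, ENNReal.ofReal ‖s (cell x)‖ := by
  have hAc : ∀ c, MeasurableSet (A ∩ {x | cell x = c}) := fun c => hA.inter (hcell c)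
  refine ⟨fun t => ∑' c, μHE[n] {x | x ∈ A ∩ {x | cell x = c} ∧ inner ℝ (s c) x + b c = t},
    ?_, ?_, ?_⟩
  · exact Measurable.tsum fun c => (coarea_affine (s c) (hs c) (b c) _ (hAc c)).1
  · intro t
    refine le_trans (measure_mono ?_) (measure_iUnion_le _)
    intro x hx
    rw [mem_iUnion]
    exact ⟨cell x, ⟨hx.1, rfl⟩, hx.2⟩
  · rw [lintegral_tsum fun c => (coarea_affine (s c) (hs c) (b c) _ (hAc c)).1.aemeasurable]
    have hU : A = ⋃ c, (A ∩ {x | cell x = c}) := by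
      rw [← inter_iUnion]
      ext x
      simp
    conv_rhs => rw [hU]
    rw [lintegral_iUnion hAc]
    · congr 1
      funext c
      rw [(coarea_affine (s c) (hs c) (b c) _ (hAc c)).2]
      rw [setLIntegral_congr_fun (g := fun _ => ENNReal.ofReal ‖s c‖) (hAc c)
        (fun x hx => by simp only; rw [hx.2]), setLIntegral_const]
    · intro c d hcd
      rw [Function.onFun, disjoint_left]
      rintro x ⟨_, hx⟩ ⟨_, hx'⟩
      exact hcd (hx.symm.trans hx')

omit hcell in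
lemma level_null (t : ℝ) :
    volume {x | inner ℝ (s (cell x)) x + b (cell x) = t} = 0 := by
  refine measure_mono_null (t := ⋃ c, {x | inner ℝ (s c) x + b c = t}) ?_ ?_
  · intro x hx
    rw [mem_iUnion]
    exact ⟨cell x, hx⟩
  · rw [measure_iUnion_null_iff]
    exact fun c => volume_hyper (s c) (hs c) (b c) t

end pw

section cut

variable {n : ℕ}

/-- The competitor. -/
def cut (Ω : Set (EuclideanSpace ℝ (Fin (n + 1)))) (Ψ : EuclideanSpace ℝ (Fin (n + 1)) → ℝ)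
    (τ : ℝ) : Set (EuclideanSpace ℝ (Fin (n + 1))) :=
  {x | x ∈ Ω ∧ ((0 ≤ x 0 ∧ Ψ x < -τ) ∨ (x 0 < 0 ∧ Ψ x < τ))}

lemma cut_measurable {Ω : Set (EuclideanSpace ℝ (Fin (n + 1)))} (hΩ : MeasurableSet Ω)
    {Ψ : EuclideanSpace ℝ (Fin (n + 1)) → ℝ} (hΨ : Continuous Ψ) (τ : ℝ) :
    MeasurableSet (cut Ω Ψ τ) := by
  have h0 : Measurable (fun x : EuclideanSpace ℝ (Fin (n + 1)) => x 0) := by
    have : Continuous (fun x : EuclideanSpace ℝ (Fin (n + 1)) => x 0) := by fun_prop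
    exact this.measurable
  have hm := hΨ.measurable
  refine hΩ.inter ?_
  exact ((measurableSet_le measurable_const h0).inter (measurableSet_lt hm measurable_const)).union
    ((measurableSet_lt h0 measurable_const).inter (measurableSet_lt hm measurable_const))

lemma cut_frontier {Ω : Set (EuclideanSpace ℝ (Fin (n + 1)))} (hΩ : IsOpen Ω)
    {Ψ : EuclideanSpace ℝ (Fin (n + 1)) → ℝ} (hΨ : Continuous Ψ) (τ : ℝ) :
    Ω ∩ frontier (cut Ω Ψ τ) ⊆
      {x | x ∈ Ω ∧ 0 < x 0 ∧ Ψ x = -τ} ∪ ({x | x ∈ Ω ∧ x 0 < 0 ∧ Ψ x = τ} ∪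
        {x | x ∈ Ω ∧ x 0 = 0 ∧ |Ψ x| ≤ |τ|}) := by
  have h0 : Continuous (fun x : EuclideanSpace ℝ (Fin (n + 1)) => x 0) := by fun_prop
  rintro x ⟨hxΩ, hxf⟩
  have hint : ∀ U : Set (EuclideanSpace ℝ (Fin (n + 1))), IsOpen U → x ∈ U →
      U ⊆ cut Ω Ψ τ → False := by
    intro U hU hxU hsub
    exact hxf.2 (interior_maximal hsub hU hxU)
  have hext : ∀ U : Set (EuclideanSpace ℝ (Fin (n + 1))), IsOpen U → x ∈ U →
      Disjoint U (cut Ω Ψ τ) → False := by
    intro U hU hxU hdis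
    have := mem_closure_iff.1 hxf.1 U hU hxU
    rw [disjoint_iff_inter_eq_empty] at hdis
    rw [hdis] at this
    exact this.ne_empty rfl
  rcases lt_trichotomy (x 0) 0 with hx0 | hx0 | hx0
  · right; left
    refine ⟨hxΩ, hx0, ?_⟩
    rcases lt_trichotomy (Ψ x) τ with h | h | h
    · exfalso
      refine hint (Ω ∩ ({y | y 0 < 0} ∩ {y | Ψ y < τ})) (hΩ.inter
        ((isOpen_lt h0 continuous_const).inter (isOpen_lt hΨ continuous_const)))
        ⟨hxΩ, hx0, h⟩ ?_
      rintro y ⟨hy1, hy2, hy3⟩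
      exact ⟨hy1, Or.inr ⟨hy2, hy3⟩⟩
    · exact h
    · exfalso
      refine hext ({y | y 0 < 0} ∩ {y | τ < Ψ y})
        ((isOpen_lt h0 continuous_const).inter (isOpen_lt continuous_const hΨ))
        ⟨hx0, h⟩ ?_
      rw [disjoint_left]
      rintro y ⟨hy1, hy2⟩ ⟨_, hy3 | hy3⟩
      · exact absurd hy3.1 (not_le.mpr hy1)
      · exact absurd hy3.2 (not_lt.mpr (le_of_lt hy2))
  · right; right
    refine ⟨hxΩ, hx0, ?_⟩
    by_contra hcon
    rw [not_le] at hcon
    rcases lt_abs.1 hcon with h | h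
    · refine hext ({y | |τ| < Ψ y}) (isOpen_lt continuous_const hΨ) h ?_
      rw [disjoint_left]
      rintro y hy1 ⟨_, hy3 | hy3⟩
      · have : |τ| < Ψ y := hy1
        have := neg_abs_le τ
        have := neg_le_abs τ
        linarith [hy3.2]
      · have : |τ| < Ψ y := hy1
        have := le_abs_self τ
        linarith [hy3.2]
    · refine hint (Ω ∩ {y | |τ| < -Ψ y}) (hΩ.inter (isOpen_lt continuous_const hΨ.neg))
        ⟨hxΩ, h⟩ ?_
      rintro y ⟨hy1, hy2⟩
      refine ⟨hy1, ?_⟩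
      have hy3 : |τ| < -Ψ y := hy2
      rcases le_or_gt 0 (y 0) with h' | h'
      · left
        refine ⟨h', ?_⟩
        have := le_abs_self τ
        linarith
      · right
        refine ⟨h', ?_⟩
        have := neg_le_abs τ
        linarith
  · left
    refine ⟨hxΩ, hx0, ?_⟩
    rcases lt_trichotomy (Ψ x) (-τ) with h | h | h
    · exfalso
      refine hint (Ω ∩ ({y | 0 < y 0} ∩ {y | Ψ y < -τ})) (hΩ.inter
        ((isOpen_lt continuous_const h0).inter (isOpen_lt hΨ continuous_const)))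
        ⟨hxΩ, hx0, h⟩ ?_
      rintro y ⟨hy1, hy2, hy3⟩
      exact ⟨hy1, Or.inl ⟨le_of_lt hy2, hy3⟩⟩
    · exact h
    · exfalso
      refine hext ({y | 0 < y 0} ∩ {y | -τ < Ψ y})
        ((isOpen_lt continuous_const h0).inter (isOpen_lt continuous_const hΨ))
        ⟨hx0, h⟩ ?_
      rw [disjoint_left]
      rintro y ⟨hy1, hy2⟩ ⟨_, hy3 | hy3⟩
      · exact absurd hy3.2 (not_lt.mpr (le_of_lt hy2))
      · exact absurd hy3.1 (not_lt.mpr (le_of_lt hy1))

lemma cut_volume {Ω : Set (EuclideanSpace ℝ (Fin (n + 1)))} (hΩ : MeasurableSet Ω)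
    (hsym : ∀ x ∈ Ω, -x ∈ Ω)
    {Ψ : EuclideanSpace ℝ (Fin (n + 1)) → ℝ} (hΨ : Continuous Ψ) (hodd : ∀ x, Ψ (-x) = -Ψ x)
    (hnull : ∀ t, volume {x | Ψ x = t} = 0) (τ : ℝ) :
    volume (cut Ω Ψ τ) = volume Ω / 2 := by
  set F := cut Ω Ψ τ with hF
  have hFm : MeasurableSet F := cut_measurable hΩ hΨ τ
  have hFΩ : F ⊆ Ω := fun x hx => hx.1
  have hneg : volume (Neg.neg ⁻¹' F) = volume F := by
    exact (Measure.measurePreserving_neg (volume : Measure (EuclideanSpace ℝ (Fin (n + 1))))).measure_preimage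
      hFm.nullMeasurableSet
  set Z : Set (EuclideanSpace ℝ (Fin (n + 1))) := {x | x 0 = 0} ∪ ({x | Ψ x = τ} ∪ {x | Ψ x = -τ})
    with hZ
  have hZ0 : volume Z = 0 := by
    have hx0 : volume {x : EuclideanSpace ℝ (Fin (n + 1)) | x 0 = 0} = 0 := by
      have := volume_hyper (n := n) (EuclideanSpace.single (0 : Fin (n + 1)) (1 : ℝ))
        (by simp) 0 0
      simpa [EuclideanSpace.inner_single_left] using this
    rw [hZ, measure_union_null_iff, measure_union_null_iff]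
    exact ⟨hx0, hnull τ, hnull (-τ)⟩
  have h1 : Ω \ F ⊆ (Neg.neg ⁻¹' F) ∪ Z := by
    rintro x ⟨hxΩ, hxF⟩
    by_cases hxZ : x ∈ Z
    · exact Or.inr hxZ
    left
    simp only [hZ, mem_union, mem_ofPred_eq, not_or] at hxZ
    obtain ⟨hz1, hz2, hz3⟩ := hxZ
    show -x ∈ F
    refine ⟨hsym x hxΩ, ?_⟩
    have hn0 : (-x) 0 = -(x 0) := by simp
    rw [hodd, hn0]
    rcases lt_or_gt_of_ne hz1 with h | h
    · left
      refine ⟨by linarith, ?_⟩
      have : ¬ Ψ x < τ := fun h' => hxF ⟨hxΩ, Or.inr ⟨h, h'⟩⟩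
      have h3 : τ < Ψ x := lt_of_le_of_ne (not_lt.mp this) (Ne.symm hz2)
      linarith
    · right
      refine ⟨by linarith, ?_⟩
      have : ¬ Ψ x < -τ := fun h' => hxF ⟨hxΩ, Or.inl ⟨h.le, h'⟩⟩
      have h3 : -τ < Ψ x := lt_of_le_of_ne (not_lt.mp this) (Ne.symm hz3)
      linarith
  have h2 : (Neg.neg ⁻¹' F) ⊆ (Ω \ F) ∪ Z := by
    intro x hx
    by_cases hxZ : x ∈ Z
    · exact Or.inr hxZ
    left
    have hx' : -x ∈ F := hx
    have hxΩ : x ∈ Ω := by
      have := hsym _ (hFΩ hx')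
      simpa using this
    refine ⟨hxΩ, ?_⟩
    simp only [hZ, mem_union, mem_ofPred_eq, not_or] at hxZ
    obtain ⟨hz1, hz2, hz3⟩ := hxZ
    obtain ⟨_, h⟩ := hx'
    have hn0 : (-x) 0 = -(x 0) := by simp
    rw [hodd, hn0] at h
    rintro ⟨_, h'⟩
    rcases h with h | h <;> rcases h' with h' | h'
    · have : x 0 = 0 := by linarith [h.1, h'.1]
      exact hz1 this
    · linarith [h.2, h'.2]
    · linarith [h.2, h'.2]
    · linarith [h.1, h'.1]
  have h3 : volume (Ω \ F) = volume F := by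
    refine le_antisymm ?_ ?_
    · calc volume (Ω \ F) ≤ volume ((Neg.neg ⁻¹' F) ∪ Z) := measure_mono h1
        _ ≤ volume (Neg.neg ⁻¹' F) + volume Z := measure_union_le _ _
        _ = volume F := by rw [hZ0, add_zero, hneg]
    · calc volume F = volume (Neg.neg ⁻¹' F) := hneg.symm
        _ ≤ volume ((Ω \ F) ∪ Z) := measure_mono h2
        _ ≤ volume (Ω \ F) + volume Z := measure_union_le _ _
        _ = volume (Ω \ F) := by rw [hZ0, add_zero]
  have h4 : volume F + volume F = volume Ω := by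
    conv_lhs => rw [← h3]
    rw [h3, ← h3, add_comm]
    have := measure_inter_add_sdiff Ω hFm (μ := volume)
    rw [inter_eq_self_of_subset_right hFΩ, h3] at this
    rw [h3]
    exact this
  rw [← h4, ← two_mul, mul_comm, ENNReal.mul_div_cancel_right (by norm_num) (by norm_num)]

/-- Among the competitors there is one with small boundary. -/
theorem exists_good {C : Type*} [Countable C]
    {cell : EuclideanSpace ℝ (Fin (n + 1)) → C} (hcell : ∀ c, MeasurableSet {x | cell x = c})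
    {s : C → EuclideanSpace ℝ (Fin (n + 1))} (hs : ∀ c, s c ≠ 0) {b : C → ℝ}
    {Ω : Set (EuclideanSpace ℝ (Fin (n + 1)))} (hΩ : IsOpen Ω)
    (hsym : ∀ x ∈ Ω, -x ∈ Ω)
    {Ψ : EuclideanSpace ℝ (Fin (n + 1)) → ℝ} (hΨ : Continuous Ψ) (hodd : ∀ x, Ψ (-x) = -Ψ x)
    (hpw : ∀ x, Ψ x = inner ℝ (s (cell x)) x + b (cell x))
    {D : ℝ} (B : ℝ≥0∞)
    (hB : (∫⁻ x in {x | x ∈ Ω ∧ |Ψ x| < D}, ENNReal.ofReal ‖s (cell x)‖) +
      ENNReal.ofReal (2 * D) * μHE[n] {x | x ∈ Ω ∧ x 0 = 0 ∧ |Ψ x| ≤ D} <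
        ENNReal.ofReal (2 * D) * B) :
    ∃ F, MeasurableSet F ∧ F ⊆ Ω ∧ volume F = volume Ω / 2 ∧ μHE[n] (Ω ∩ frontier F) < B := by
  have hx0 : Measurable (fun x : EuclideanSpace ℝ (Fin (n + 1)) => x 0) := by
    have : Continuous (fun x : EuclideanSpace ℝ (Fin (n + 1)) => x 0) := by fun_prop
    exact this.measurable
  have hnull : ∀ t, volume {x | Ψ x = t} = 0 := by
    intro t
    simp_rw [hpw]
    exact level_null hs t
  set A : Set (EuclideanSpace ℝ (Fin (n + 1))) := {x | x ∈ Ω ∧ |Ψ x| < D} with hAdef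
  have hAm : MeasurableSet A := by
    exact hΩ.measurableSet.inter (measurableSet_lt hΨ.abs.measurable measurable_const)
  set A1 := A ∩ {x | 0 < x 0} with hA1
  set A2 := A ∩ {x | x 0 < 0} with hA2
  have hA1m : MeasurableSet A1 := hAm.inter (measurableSet_lt measurable_const hx0)
  have hA2m : MeasurableSet A2 := hAm.inter (measurableSet_lt hx0 measurable_const)
  obtain ⟨G1, hG1m, hG1, hG1i⟩ := coarea_pw hcell hs (b := b) A1 hA1m
  obtain ⟨G2, hG2m, hG2, hG2i⟩ := coarea_pw hcell hs (b := b) A2 hA2m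
  set Q := μHE[n] {x | x ∈ Ω ∧ x 0 = 0 ∧ |Ψ x| ≤ D} with hQ
  by_contra hcon
  push Not at hcon
  have hP : ∀ τ ∈ Ioo (-D) D, B ≤ G1 (-τ) + (G2 τ + Q) := by
    intro τ hτ
    refine le_trans (hcon (cut Ω Ψ τ) (cut_measurable hΩ.measurableSet hΨ τ) (fun x hx => hx.1)
      (cut_volume hΩ.measurableSet hsym hΨ hodd hnull τ)) ?_
    have hτ' : |τ| < D := abs_lt.mpr hτ
    refine le_trans (measure_mono (cut_frontier hΩ hΨ τ)) ?_
    refine le_trans (measure_union_le _ _) ?_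
    refine add_le_add ?_ (le_trans (measure_union_le _ _) (add_le_add ?_ ?_))
    · refine le_trans (measure_mono ?_) (hG1 (-τ))
      rintro x ⟨h1, h2, h3⟩
      refine ⟨⟨⟨h1, ?_⟩, h2⟩, ?_⟩
      · rw [h3, abs_neg]; exact hτ'
      · rw [← hpw, h3]
    · refine le_trans (measure_mono ?_) (hG2 τ)
      rintro x ⟨h1, h2, h3⟩
      refine ⟨⟨⟨h1, ?_⟩, h2⟩, ?_⟩
      · rw [h3]; exact hτ'
      · rw [← hpw, h3]
    · refine measure_mono ?_
      rintro x ⟨h1, h2, h3⟩
      exact ⟨h1, h2, h3.trans hτ'.le⟩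
  have hI : ∫⁻ _ in Ioo (-D) D, B ≤ ∫⁻ τ in Ioo (-D) D, (G1 (-τ) + (G2 τ + Q)) :=
    setLIntegral_mono' measurableSet_Ioo hP
  rw [setLIntegral_const, Real.volume_Ioo] at hI
  have e1 : D - -D = 2 * D := by ring
  rw [e1] at hI
  have hG1m' : Measurable (fun τ => G1 (-τ)) := hG1m.comp measurable_neg
  rw [lintegral_add_left hG1m', lintegral_add_left hG2m, setLIntegral_const, Real.volume_Ioo, e1]
    at hI
  have hI1 : ∫⁻ τ in Ioo (-D) D, G1 (-τ) ≤ ∫⁻ x in A1, ENNReal.ofReal ‖s (cell x)‖ := by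
    rw [← hG1i]
    refine le_trans (setLIntegral_le_lintegral _ _) ?_
    exact le_of_eq (lintegral_neg_eq_self (μ := (volume : Measure ℝ)) G1)
  have hI2 : ∫⁻ τ in Ioo (-D) D, G2 τ ≤ ∫⁻ x in A2, ENNReal.ofReal ‖s (cell x)‖ := by
    rw [← hG2i]
    exact setLIntegral_le_lintegral _ _
  have hdisj : Disjoint A1 A2 := by
    rw [disjoint_left]
    rintro x ⟨_, h1⟩ ⟨_, h2⟩
    exact lt_asymm (show 0 < x 0 from h1) h2
  have hI3 : (∫⁻ x in A1, ENNReal.ofReal ‖s (cell x)‖) + ∫⁻ x in A2, ENNReal.ofReal ‖s (cell x)‖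
      ≤ ∫⁻ x in A, ENNReal.ofReal ‖s (cell x)‖ := by
    rw [← lintegral_union hA2m hdisj]
    exact lintegral_mono_set (union_subset inter_subset_left inter_subset_left)
  have hfin : ENNReal.ofReal (2 * D) * B ≤ (∫⁻ x in A, ENNReal.ofReal ‖s (cell x)‖) +
      ENNReal.ofReal (2 * D) * Q := by
    calc ENNReal.ofReal (2 * D) * B = B * ENNReal.ofReal (2 * D) := mul_comm _ _
      _ ≤ _ := hI
      _ ≤ (∫⁻ x in A1, ENNReal.ofReal ‖s (cell x)‖) +
          ((∫⁻ x in A2, ENNReal.ofReal ‖s (cell x)‖) + Q * ENNReal.ofReal (2 * D)) := by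
          gcongr
      _ = ((∫⁻ x in A1, ENNReal.ofReal ‖s (cell x)‖) +
          (∫⁻ x in A2, ENNReal.ofReal ‖s (cell x)‖)) + ENNReal.ofReal (2 * D) * Q := by
          rw [mul_comm Q, add_assoc]
      _ ≤ _ := by gcongr
  exact absurd hB (not_lt.mpr hfin)

end cut

end Pool.H65.Kls
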