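import Mathlib
import Pool.Agent.H65.KlsSlice

set_option autoImplicit false

open MeasureTheory Measure Set Filter Topology
open scoped ENNReal NNReal FourierTransform

namespace Pool.H65.Kls

/-- `∫ exp(-|t|) exp(i c t) dt`, integrability. -/
lemma integrable_exp_abs_mul (c : ℝ) :
    Integrable (fun t : ℝ => (Real.exp (-|t|) : ℂ) * Complex.exp ((c * t : ℝ) * Complex.I)) := by
  rw [← integrableOn_univ, ← Iic_union_Ioi (a := (0 : ℝ))]
  refine IntegrableOn.union ?_ ?_
  · refine (integrableOn_exp_mul_complex_Iic (a := 1 + c * Complex.I) (by simp) 0).congr_fun ?_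
      measurableSet_Iic
    intro t ht
    have ht' : t ≤ 0 := ht
    simp only
    rw [abs_of_nonpos ht', neg_neg, Complex.ofReal_exp, ← Complex.exp_add]
    congr 1
    push_cast
    ring
  · refine (integrableOn_exp_mul_complex_Ioi (a := -1 + c * Complex.I) (by simp) 0).congr_fun ?_
      measurableSet_Ioi
    intro t ht
    have ht' : 0 < t := ht
    simp only
    rw [abs_of_pos ht', Complex.ofReal_exp, ← Complex.exp_add]
    congr 1
    push_cast
    ring

lemma integral_exp_abs_mul (c : ℝ) :
    ∫ t : ℝ, (Real.exp (-|t|) : ℂ) * Complex.exp ((c * t : ℝ) * Complex.I)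
      = ((2 / (1 + c ^ 2) : ℝ) : ℂ) := by
  have hi := integrable_exp_abs_mul c
  rw [← intervalIntegral.integral_Iic_add_Ioi (b := 0) hi.integrableOn hi.integrableOn]
  have h1 : ∫ t in Iic (0 : ℝ), (Real.exp (-|t|) : ℂ) * Complex.exp ((c * t : ℝ) * Complex.I)
      = 1 / (1 + c * Complex.I) := by
    rw [setIntegral_congr_fun (g := fun t : ℝ => Complex.exp ((1 + c * Complex.I) * t))
      measurableSet_Iic]
    · rw [integral_exp_mul_complex_Iic (by simp)]
      simp
    · intro t ht
      have ht' : t ≤ 0 := ht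
      simp only
      rw [abs_of_nonpos ht', neg_neg, Complex.ofReal_exp, ← Complex.exp_add]
      congr 1
      push_cast
      ring
  have h2 : ∫ t in Ioi (0 : ℝ), (Real.exp (-|t|) : ℂ) * Complex.exp ((c * t : ℝ) * Complex.I)
      = 1 / (1 - c * Complex.I) := by
    rw [setIntegral_congr_fun (g := fun t : ℝ => Complex.exp ((-1 + c * Complex.I) * t))
      measurableSet_Ioi]
    · rw [integral_exp_mul_complex_Ioi (by simp)]
      simp only [Complex.ofReal_zero, mul_zero, Complex.exp_zero]
      rw [show (1 : ℂ) - c * Complex.I = -(-1 + c * Complex.I) by ring, div_neg, neg_div]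
    · intro t ht
      have ht' : 0 < t := ht
      simp only
      rw [abs_of_pos ht', Complex.ofReal_exp, ← Complex.exp_add]
      congr 1
      push_cast
      ring
  rw [h1, h2]
  have h3 : (1 + c * Complex.I : ℂ) ≠ 0 := by
    intro h
    have := congrArg Complex.re h
    simp at this
  have h4 : (1 - c * Complex.I : ℂ) ≠ 0 := by
    intro h
    have := congrArg Complex.re h
    simp at this
  have h5 : ((1 : ℂ) + (c : ℂ) ^ 2) = (1 + c * Complex.I) * (1 - c * Complex.I) := by
    ring_nf
    rw [Complex.I_sq]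
    ring
  push_cast
  rw [h5]
  field_simp
  ring

/-- The `ℓ¹` norm. -/
noncomputable def l1 {N : ℕ} (x : EuclideanSpace ℝ (Fin N)) : ℝ := ∑ i, |x i|

lemma l1_continuous {N : ℕ} : Continuous (l1 : EuclideanSpace ℝ (Fin N) → ℝ) := by
  unfold l1
  fun_prop

lemma l1_nonneg {N : ℕ} (x : EuclideanSpace ℝ (Fin N)) : 0 ≤ l1 x := by
  unfold l1
  positivity

lemma l1_add {N : ℕ} (x y : EuclideanSpace ℝ (Fin N)) : l1 (x + y) ≤ l1 x + l1 y := by
  unfold l1
  rw [← Finset.sum_add_distrib]
  exact Finset.sum_le_sum fun i _ => abs_add_le _ _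

lemma l1_neg {N : ℕ} (x : EuclideanSpace ℝ (Fin N)) : l1 (-x) = l1 x := by
  simp [l1]

lemma l1_smul {N : ℕ} (r : ℝ) (x : EuclideanSpace ℝ (Fin N)) : l1 (r • x) = |r| * l1 x := by
  simp [l1, abs_mul, Finset.mul_sum]

lemma l1_eq_zero {N : ℕ} {x : EuclideanSpace ℝ (Fin N)} (h : l1 x = 0) : x = 0 := by
  unfold l1 at h
  rw [Finset.sum_eq_zero_iff_of_nonneg (fun i _ => abs_nonneg _)] at h
  ext i
  simpa using h i (Finset.mem_univ i)

lemma integrable_l1 {N : ℕ} (a : EuclideanSpace ℝ (Fin N)) (ξ : ℝ) :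
    Integrable (fun x : EuclideanSpace ℝ (Fin N) =>
      (Real.exp (-l1 x) : ℂ) * Complex.exp ((-2 * Real.pi * ξ * inner ℝ a x : ℝ) * Complex.I)) := by
  have h := Integrable.fintype_prod (μ := fun _ : Fin N => (volume : Measure ℝ))
    (f := fun i (t : ℝ) => (Real.exp (-|t|) : ℂ) *
      Complex.exp (((-2 * Real.pi * ξ * a i) * t : ℝ) * Complex.I))
    (fun i => integrable_exp_abs_mul _)
  have h2 := (PiLp.volume_preserving_ofLp (Fin N)).integrable_comp_of_integrable h
  refine h2.congr ?_
  filter_upwards with x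
  simp only [Function.comp]
  rw [Finset.prod_mul_distrib]
  congr 1
  · rw [l1, ← Finset.sum_neg_distrib, Real.exp_sum]
    push_cast
    rfl
  · rw [← Complex.exp_sum]
    congr 1
    rw [← Finset.sum_mul]
    congr 1
    rw [PiLp.inner_apply, ← Complex.ofReal_sum]
    congr 1
    rw [Finset.mul_sum]
    refine Finset.sum_congr rfl fun i _ => ?_
    simp
    ring

lemma integral_l1 {N : ℕ} (a : EuclideanSpace ℝ (Fin N)) (ξ : ℝ) :
    ∫ x : EuclideanSpace ℝ (Fin N),
      (Real.exp (-l1 x) : ℂ) * Complex.exp ((-2 * Real.pi * ξ * inner ℝ a x : ℝ) * Complex.I)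
      = ((∏ i, (2 / (1 + (2 * Real.pi * ξ * a i) ^ 2)) : ℝ) : ℂ) := by
  have h := integral_fintype_prod_volume_eq_prod (ι := Fin N) (E := fun _ => ℝ)
    (f := fun i (t : ℝ) => (Real.exp (-|t|) : ℂ) *
      Complex.exp (((-2 * Real.pi * ξ * a i) * t : ℝ) * Complex.I))
  have h2 := (PiLp.volume_preserving_ofLp (Fin N)).integral_comp
    (MeasurableEquiv.toLp 2 (Fin N → ℝ)).symm.measurableEmbedding
    (fun x : Fin N → ℝ => ∏ i, ((Real.exp (-|x i|) : ℂ) *
      Complex.exp (((-2 * Real.pi * ξ * a i) * x i : ℝ) * Complex.I)))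
  rw [h] at h2
  simp_rw [integral_exp_abs_mul] at h2
  rw [Complex.ofReal_prod]
  calc _ = ∫ (x : EuclideanSpace ℝ (Fin N)), ∏ i, ((Real.exp (-|x i|) : ℂ) *
      Complex.exp (((-2 * Real.pi * ξ * a i) * x i : ℝ) * Complex.I)) := by
        congr 1
        funext x
        rw [Finset.prod_mul_distrib]
        congr 1
        · rw [l1, ← Finset.sum_neg_distrib, Real.exp_sum]
          push_cast
          rfl
        · rw [← Complex.exp_sum]
          congr 1
          rw [← Finset.sum_mul]
          congr 1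
          rw [PiLp.inner_apply, ← Complex.ofReal_sum]
          congr 1
          rw [Finset.mul_sum]
          refine Finset.sum_congr rfl fun i _ => ?_
          simp
          ring
    _ = _ := by
        refine h2.trans ?_
        refine Finset.prod_congr rfl fun i _ => ?_
        congr 2
        ring

section fourier

variable {n : ℕ} {a : EuclideanSpace ℝ (Fin (n + 1))}
  {ι : EuclideanSpace ℝ (Fin n) →ₗᵢ[ℝ] EuclideanSpace ℝ (Fin (n + 1))}

lemma integrable_exp_l1 {N : ℕ} :
    Integrable (fun x : EuclideanSpace ℝ (Fin N) => Real.exp (-l1 x)) := by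
  have h := (integrable_l1 (0 : EuclideanSpace ℝ (Fin N)) 0).re
  refine h.congr ?_
  filter_upwards with x
  simp only [mul_zero, inner_zero_left, Complex.ofReal_zero, zero_mul, Complex.exp_zero, mul_one]
  exact Complex.ofReal_re _

lemma integrable_sec
    (hm : MeasurePreserving (fun p : ℝ × EuclideanSpace ℝ (Fin n) => p.1 • a + ι p.2)
        (volume.prod volume) volume) :
    Integrable (fun y => Real.exp (-l1 (ι y))) := by
  have h1 := hm.integrable_comp_of_integrable (integrable_exp_l1 (N := n + 1))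
  have h2 := h1.prod_right_ae
  obtain ⟨u, hu⟩ := h2.exists
  simp only [Function.comp] at hu
  refine (hu.const_mul (Real.exp (l1 (u • a)))).mono' ?_ ?_
  · exact (Real.continuous_exp.comp (l1_continuous.comp ι.continuous).neg).aestronglyMeasurable
  · filter_upwards with y
    rw [Real.norm_eq_abs, abs_of_pos (Real.exp_pos _), ← Real.exp_add]
    apply Real.exp_le_exp.mpr
    have := l1_add (u • a) (ι y)
    linarith

/-- The function whose value at `0` is the section integral. -/
noncomputable def secFun (a : EuclideanSpace ℝ (Fin (n + 1)))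
    (ι : EuclideanSpace ℝ (Fin n) →ₗᵢ[ℝ] EuclideanSpace ℝ (Fin (n + 1))) (u : ℝ) : ℂ :=
  ∫ y, (Real.exp (-l1 (u • a + ι y)) : ℂ)

lemma secFun_continuousAt
    (hm : MeasurePreserving (fun p : ℝ × EuclideanSpace ℝ (Fin n) => p.1 • a + ι p.2)
        (volume.prod volume) volume) :
    ContinuousAt (secFun a ι) 0 := by
  refine continuousAt_of_dominated (bound := fun y => Real.exp (l1 a) * Real.exp (-l1 (ι y)))
    ?_ ?_ ((integrable_sec hm).const_mul _) ?_
  · filter_upwards with u
    refine Continuous.aestronglyMeasurable ?_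
    exact Complex.continuous_ofReal.comp (Real.continuous_exp.comp
      (l1_continuous.comp (continuous_const.add ι.continuous)).neg)
  · filter_upwards [Metric.ball_mem_nhds (0 : ℝ) one_pos] with u hu
    rw [Metric.mem_ball, Real.dist_eq, sub_zero] at hu
    filter_upwards with y
    rw [Complex.norm_real, Real.norm_eq_abs, abs_of_pos (Real.exp_pos _), ← Real.exp_add]
    apply Real.exp_le_exp.mpr
    have h1 := l1_add (-(u • a)) (u • a + ι y)
    rw [neg_add_cancel_left, l1_neg, l1_smul] at h1
    have h2 : |u| * l1 a ≤ 1 * l1 a := mul_le_mul_of_nonneg_right hu.le (l1_nonneg a)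
    linarith
  · filter_upwards with y
    refine Continuous.continuousAt ?_
    exact Complex.continuous_ofReal.comp (Real.continuous_exp.comp
      (l1_continuous.comp ((continuous_id.smul continuous_const).add continuous_const)).neg)

lemma secFun_integrable
    (hm : MeasurePreserving (fun p : ℝ × EuclideanSpace ℝ (Fin n) => p.1 • a + ι p.2)
        (volume.prod volume) volume) :
    Integrable (secFun a ι) := by
  have h0 := (integrable_exp_l1 (N := n + 1)).ofReal (𝕜 := ℂ)
  have h1 := hm.integrable_comp_of_integrable h0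
  exact h1.integral_prod_left

lemma fourier_secFun (ha : ‖a‖ = 1) (h0 : ∀ y, inner ℝ a (ι y) = 0)
    (hm : MeasurePreserving (fun p : ℝ × EuclideanSpace ℝ (Fin n) => p.1 • a + ι p.2)
        (volume.prod volume) volume) (ξ : ℝ) :
    𝓕 (secFun a ι) ξ = ((∏ i, (2 / (1 + (2 * Real.pi * ξ * a i) ^ 2)) : ℝ) : ℂ) := by
  rw [← integral_l1 a ξ, Real.fourier_real_eq_integral_exp_smul]
  have hint := hm.integrable_comp_of_integrable (integrable_l1 a ξ)
  have h1 : ∫ x : EuclideanSpace ℝ (Fin (n + 1)),
      (Real.exp (-l1 x) : ℂ) * Complex.exp ((-2 * Real.pi * ξ * inner ℝ a x : ℝ) * Complex.I)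
      = ∫ p : ℝ × EuclideanSpace ℝ (Fin n), (Real.exp (-l1 (p.1 • a + ι p.2)) : ℂ) *
        Complex.exp ((-2 * Real.pi * ξ * inner ℝ a (p.1 • a + ι p.2) : ℝ) * Complex.I)
        ∂(volume.prod volume) := by
    rw [← hm.map_eq, integral_map hm.measurable.aemeasurable]
    refine Continuous.aestronglyMeasurable ?_
    exact (Complex.continuous_ofReal.comp (Real.continuous_exp.comp l1_continuous.neg)).mul
      (by fun_prop)
  have h2 := integral_prod _ hint
  simp only [Function.comp] at h2
  rw [h1, h2]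
  congr 1
  funext u
  rw [secFun, smul_eq_mul, mul_comm, ← integral_mul_const]
  congr 1
  funext y
  congr 3
  rw [inner_add_right, inner_smul_right, real_inner_self_eq_norm_sq, ha, h0]
  push_cast
  ring

lemma integrable_prod_cauchy (ha : ‖a‖ = 1) :
    Integrable (fun ξ : ℝ => (∏ i, (2 / (1 + (2 * Real.pi * ξ * a i) ^ 2)) : ℝ)) := by
  have : ∃ j, a j ≠ 0 := by
    by_contra hcon
    push Not at hcon
    have : a = 0 := by
      ext i
      simpa using hcon i
    rw [this] at ha
    simp at ha
  obtain ⟨j, hj⟩ := this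
  have h1 : Integrable (fun ξ : ℝ => 2 ^ (n + 1) * (1 + ((2 * Real.pi * a j) * ξ) ^ 2)⁻¹) :=
    (integrable_inv_one_add_sq.comp_mul_left' (by positivity)).const_mul _
  refine h1.mono' ?_ ?_
  · refine Continuous.aestronglyMeasurable ?_
    refine continuous_finsetProd _ fun i _ => ?_
    refine continuous_const.div (by fun_prop) fun ξ => ?_
    positivity
  · filter_upwards with ξ
    rw [Real.norm_eq_abs, abs_of_nonneg (Finset.prod_nonneg fun i _ => by positivity)]
    rw [Finset.prod_div_distrib, Finset.prod_const, Finset.card_univ, Fintype.card_fin,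
      div_eq_mul_inv]
    refine mul_le_mul_of_nonneg_left ?_ (by positivity)
    rw [inv_le_inv₀ (Finset.prod_pos fun i _ => by positivity) (by positivity)]
    calc 1 + (2 * Real.pi * a j * ξ) ^ 2 = 1 + (2 * Real.pi * ξ * a j) ^ 2 := by ring
      _ = ∏ i, (if i = j then 1 + (2 * Real.pi * ξ * a j) ^ 2 else 1) := by
        rw [Finset.prod_ite_eq' Finset.univ j]
        simp
      _ ≤ ∏ i, (1 + (2 * Real.pi * ξ * a i) ^ 2) := by
        refine Finset.prod_le_prod (fun i _ => ?_) (fun i _ => ?_)
        · split_ifs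
          · positivity
          · exact zero_le_one
        · split_ifs with h
          · rw [h]
          · nlinarith [sq_nonneg (2 * Real.pi * ξ * a i)]

lemma sec_integral (ha : ‖a‖ = 1) (h0 : ∀ y, inner ℝ a (ι y) = 0)
    (hm : MeasurePreserving (fun p : ℝ × EuclideanSpace ℝ (Fin n) => p.1 • a + ι p.2)
        (volume.prod volume) volume) :
    ∫ y, Real.exp (-l1 (ι y)) =
      ∫ ξ : ℝ, (∏ i, (2 / (1 + (2 * Real.pi * ξ * a i) ^ 2)) : ℝ) := by
  have hF : 𝓕 (secFun a ι) =
      fun ξ : ℝ => (((∏ i, (2 / (1 + (2 * Real.pi * ξ * a i) ^ 2)) : ℝ)) : ℂ) :=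
    funext fun ξ => fourier_secFun ha h0 hm ξ
  have hFi : Integrable (𝓕 (secFun a ι)) := by
    rw [hF]
    exact (integrable_prod_cauchy ha).ofReal
  have hinv := (secFun_integrable hm).fourierInv_fourier_eq hFi (secFun_continuousAt hm)
  rw [Real.fourierInv_eq', hF] at hinv
  simp only [inner_zero_right, mul_zero, Complex.ofReal_zero, zero_mul, Complex.exp_zero,
    one_smul] at hinv
  rw [integral_complex_ofReal, secFun] at hinv
  simp only [zero_smul, zero_add] at hinv
  rw [integral_complex_ofReal] at hinv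
  exact_mod_cast hinv.symm

lemma sec_integral_lower (ha : ‖a‖ = 1) (h0 : ∀ y, inner ℝ a (ι y) = 0)
    (hm : MeasurePreserving (fun p : ℝ × EuclideanSpace ℝ (Fin n) => p.1 • a + ι p.2)
        (volume.prod volume) volume) :
    2 ^ (n + 1) / (2 * √Real.pi) ≤ ∫ y, Real.exp (-l1 (ι y)) := by
  rw [sec_integral ha h0 hm]
  have hsum : ∑ i, (a i) ^ 2 = 1 := by
    have := EuclideanSpace.norm_sq_eq a
    rw [ha] at this
    simpa using this.symm
  have hg : ∫ ξ : ℝ, (2 : ℝ) ^ (n + 1) * Real.exp (-(4 * Real.pi ^ 2) * ξ ^ 2)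
      = 2 ^ (n + 1) / (2 * √Real.pi) := by
    rw [integral_const_mul, integral_gaussian]
    have hpi : 0 < Real.pi := Real.pi_pos
    have : Real.pi / (4 * Real.pi ^ 2) = (1 / (2 * √Real.pi)) ^ 2 := by
      rw [div_pow, mul_pow, Real.sq_sqrt hpi.le]
      field_simp
      norm_num
    rw [this, Real.sqrt_sq (by positivity)]
    ring
  rw [← hg]
  refine integral_mono ?_ (integrable_prod_cauchy ha) ?_
  · exact (integrable_exp_neg_mul_sq (by positivity)).const_mul _
  · intro ξ
    simp only
    have h1 : Real.exp (-(4 * Real.pi ^ 2) * ξ ^ 2)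
        = ∏ i, Real.exp (-(2 * Real.pi * ξ * a i) ^ 2) := by
      rw [← Real.exp_sum]
      congr 1
      rw [Finset.sum_neg_distrib]
      simp_rw [mul_pow]
      rw [← Finset.mul_sum, hsum]
      ring
    have h2 : (2 : ℝ) ^ (n + 1) = ∏ _i : Fin (n + 1), (2 : ℝ) := by simp
    rw [h1, h2, ← Finset.prod_mul_distrib]
    refine Finset.prod_le_prod (fun i _ => by positivity) fun i _ => ?_
    rw [div_eq_mul_inv, Real.exp_neg]
    refine mul_le_mul_of_nonneg_left ?_ (by norm_num)
    rw [inv_le_inv₀ (Real.exp_pos _) (by positivity)]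
    have := Real.add_one_le_exp ((2 * Real.pi * ξ * a i) ^ 2)
    linarith

end fourier

/-- Every central hyperplane section of the cross-polytope is large. -/
theorem section_lower {n : ℕ} (a : EuclideanSpace ℝ (Fin (n + 1))) (ha : ‖a‖ = 1) :
    ENNReal.ofReal (2 ^ (n + 1) / (2 * √Real.pi) / n.factorial) ≤
      μHE[n] {x : EuclideanSpace ℝ (Fin (n + 1)) | l1 x < 1 ∧ inner ℝ a x = 0} := by
  obtain ⟨ι, h0, h1, hm⟩ := exists_slice a ha
  have h2 := slice_haus ha h0 h1 {x | l1 x < 1} 0
  simp only [mem_ofPred_eq, zero_smul, zero_add] at h2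
  rw [h2]
  have h3 := measure_lt_one_eq_integral_div_gamma
    (volume : Measure (EuclideanSpace ℝ (Fin n))) (g := fun y => l1 (ι y)) (by simp [l1])
    (fun x => by simp [l1_neg]) (fun x y => by simpa using l1_add (ι x) (ι y))
    (fun {x} hx => by
      have := l1_eq_zero hx
      exact ι.injective (by simpa using this))
    (fun r x => by simp [l1_smul]) (p := 1) one_pos
  rw [h3]
  apply ENNReal.ofReal_le_ofReal
  simp only [Real.rpow_one, div_one, finrank_euclideanSpace, Fintype.card_fin]
  rw [Real.Gamma_nat_eq_factorial]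
  gcongr
  exact sec_integral_lower ha h0 hm

end Pool.H65.Kls
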