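import Mathlib
import Pool.Agent.H65.KlsCut
import Pool.Agent.H65.KlsSection
import Pool.Agent.H65.KlsClt

set_option autoImplicit false

open MeasureTheory Measure Set Filter Topology
open scoped ENNReal NNReal

namespace Pool.H65.Kls

/-- The ratio of normalisations tends to `1`. -/
lemma ratio_tendsto (n : ℕ) :
    Tendsto (fun m : ℕ => (m.factorial : ℝ) * (m : ℝ) ^ n / (n + m).factorial) atTop (𝓝 1) := by
  have h1 : Tendsto (fun m : ℕ => ∏ j ∈ Finset.range n, ((m : ℝ) + 1 + j) / m) atTop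
      (𝓝 (∏ _j ∈ Finset.range n, (1 : ℝ))) := by
    refine tendsto_finsetProd _ fun j _ => ?_
    have h2 : Tendsto (fun m : ℕ => 1 + (1 + (j : ℝ)) / m) atTop (𝓝 (1 + 0)) :=
      tendsto_const_nhds.add (tendsto_const_div_atTop_nhds_zero_nat _)
    rw [add_zero] at h2
    refine h2.congr' ?_
    filter_upwards [eventually_gt_atTop 0] with m hm
    have : (m : ℝ) ≠ 0 := by exact_mod_cast hm.ne'
    field_simp
    ring
  rw [Finset.prod_const_one] at h1
  have h3 := h1.inv₀ one_ne_zero
  rw [inv_one] at h3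
  refine h3.congr' ?_
  filter_upwards [eventually_gt_atTop 0] with m hm
  have hm' : (m : ℝ) ≠ 0 := by exact_mod_cast hm.ne'
  have h4 := Nat.factorial_mul_ascFactorial m n
  rw [Nat.ascFactorial_eq_prod_range] at h4
  have h5 : ((m.factorial : ℝ)) * ∏ j ∈ Finset.range n, ((m : ℝ) + 1 + j) = (n + m).factorial := by
    rw [add_comm n m, ← h4]
    push_cast
    rfl
  rw [Finset.prod_div_distrib, Finset.prod_const, Finset.card_range, ← h5]
  have h6 : (m.factorial : ℝ) ≠ 0 := by exact_mod_cast m.factorial_ne_zero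
  have h7 : ∏ j ∈ Finset.range n, ((m : ℝ) + 1 + j) ≠ 0 := by positivity
  field_simp

section main

variable {h : ℝ} (hh : 0 < h) {K : ℕ} {n m : ℕ}

/-- The position of the `i`-th relevant coordinate. -/
def pos (n m : ℕ) (i : Fin n) : Fin (n + m + 1) := (Fin.castAdd m i).succ

lemma pos_injective : Function.Injective (pos n m) := fun _ _ hij =>
  Fin.castAdd_injective _ _ (Fin.succ_injective _ hij)

/-- The level function. -/
noncomputable def lev (h : ℝ) (K n m : ℕ) (x : EuclideanSpace ℝ (Fin (n + m + 1))) : ℝ :=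
  ∑ i : Fin n, ph h K (m * x (pos n m i))

/-- The gradient on each cell. -/
noncomputable def grd (h : ℝ) (K n m : ℕ) (c : Fin n → Bool × ℕ) :
    EuclideanSpace ℝ (Fin (n + m + 1)) :=
  WithLp.toLp 2 (fun k => ∑ i : Fin n, if k = pos n m i then m * slope h K (c i).2 else 0)

/-- The cell of a point. -/
noncomputable def cel (h : ℝ) (n m : ℕ) (x : EuclideanSpace ℝ (Fin (n + m + 1))) :
    Fin n → Bool × ℕ := fun i => cl h (m * x (pos n m i))

lemma grd_inner (c : Fin n → Bool × ℕ) (x : EuclideanSpace ℝ (Fin (n + m + 1))) :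
    inner ℝ (grd h K n m c) x = ∑ i, (m * slope h K (c i).2) * x (pos n m i) := by
  rw [PiLp.inner_apply]
  simp only [grd, RCLike.inner_apply, conj_trivial]
  simp_rw [Finset.mul_sum]
  rw [Finset.sum_comm]
  refine Finset.sum_congr rfl fun i _ => ?_
  rw [Finset.sum_eq_single (pos n m i)]
  · simp
    ring
  · intro k _ hk
    simp [hk]
  · simp

lemma grd_pos (c : Fin n → Bool × ℕ) (i : Fin n) :
    grd h K n m c (pos n m i) = m * slope h K (c i).2 := by
  simp only [grd]
  rw [Finset.sum_eq_single i]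
  · simp
  · intro j _ hj
    have : pos n m i ≠ pos n m j := fun h => hj (pos_injective h).symm
    simp [this]
  · simp

lemma grd_norm (c : Fin n → Bool × ℕ) :
    ‖grd h K n m c‖ = m * √(∑ i, (slope h K (c i).2) ^ 2) := by
  have h1 : ‖grd h K n m c‖ ^ 2 = (m * √(∑ i, (slope h K (c i).2) ^ 2)) ^ 2 := by
    rw [← real_inner_self_eq_norm_sq, grd_inner, mul_pow, Real.sq_sqrt (by positivity),
      Finset.mul_sum]
    refine Finset.sum_congr rfl fun i _ => ?_
    rw [grd_pos]
    ring
  exact (pow_left_inj₀ (norm_nonneg _) (by positivity) two_ne_zero).1 h1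

lemma grd_ne_zero (hn : 0 < n) (hm : 0 < m) (c : Fin n → Bool × ℕ) : grd h K n m c ≠ 0 := by
  intro h0
  have h1 := grd_pos (h := h) (K := K) (m := m) c ⟨0, hn⟩
  rw [h0] at h1
  have h2 : (0 : ℝ) < m := by exact_mod_cast hm
  have h3 := slope_pos (h := h) (K := K) (c ⟨0, hn⟩).2
  have h4 : (0 : ℝ) < m * slope h K (c ⟨0, hn⟩).2 := by positivity
  simp only [PiLp.zero_apply] at h1
  linarith

lemma cel_measurable (c : Fin n → Bool × ℕ) : MeasurableSet {x | cel h n m x = c} := by
  have hset : {x | cel h n m x = c} =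
      ⋂ i, (fun x : EuclideanSpace ℝ (Fin (n + m + 1)) => m * x (pos n m i)) ⁻¹'
        {t | cl h t = c i} := by
    ext x
    simp only [mem_ofPred_eq, mem_iInter, mem_preimage]
    constructor
    · intro hx i
      exact congrFun hx i
    · intro hx
      funext i
      exact hx i
  rw [hset]
  refine MeasurableSet.iInter fun i => ?_
  have : Continuous (fun x : EuclideanSpace ℝ (Fin (n + m + 1)) => (m : ℝ) * x (pos n m i)) := by
    fun_prop
  exact this.measurable (cl_measurable (c i))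

include hh in
lemma lev_continuous : Continuous (lev h K n m) := by
  unfold lev
  refine continuous_finsetSum _ fun i _ => ?_
  exact (ph_continuous hh).comp (by fun_prop)

lemma lev_neg (x : EuclideanSpace ℝ (Fin (n + m + 1))) : lev h K n m (-x) = -lev h K n m x := by
  unfold lev
  rw [← Finset.sum_neg_distrib]
  refine Finset.sum_congr rfl fun i _ => ?_
  rw [← ph_neg]
  congr 1
  simp

include hh in
lemma lev_affine : ∃ b : (Fin n → Bool × ℕ) → ℝ, ∀ x : EuclideanSpace ℝ (Fin (n + m + 1)),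
    lev h K n m x = inner ℝ (grd h K n m (cel h n m x)) x + b (cel h n m x) := by
  obtain ⟨β, hβ⟩ := ph_affine (K := K) hh
  refine ⟨fun c => ∑ i, β (c i), fun x => ?_⟩
  rw [grd_inner, ← Finset.sum_add_distrib, lev]
  refine Finset.sum_congr rfl fun i _ => ?_
  rw [hβ]
  simp only [cel]
  ring

include hh in
lemma T1_le (hm : 0 < m) (D : ℝ) :
    ∫⁻ x in {x | x ∈ {x : EuclideanSpace ℝ (Fin (n + m + 1)) | l1 x < 1} ∧ |lev h K n m x| < D},
      ENNReal.ofReal ‖grd h K n m (cel h n m x)‖ ≤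
    ENNReal.ofReal (2 ^ (m + 1) / (m + 1).factorial * ((m : ℝ) ^ n)⁻¹ * 2 ^ n) *
      (ENNReal.ofReal m * ∫⁻ x in {x : Fin n → ℝ | |∑ i, ph h K (x i)| < D},
        ENNReal.ofReal (√(∑ i, (ds h K (x i)) ^ 2)) ∂(Measure.pi (fun _ : Fin n => lap))) := by
  have hphm := (ph_continuous (K := K) hh).measurable
  have hdsm : Measurable (ds h K) := ds_measurable
  obtain ⟨e, he⟩ := exists_equiv (n := n) (k := m + 1) (pos n m) pos_injective (by ring)
  set A : Set (Fin n → ℝ) := {x : Fin n → ℝ | |∑ i, ph h K (x i)| < D} with hA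
  have hAm : MeasurableSet A := measurableSet_lt (by fun_prop) measurable_const
  set g : (Fin n → ℝ) → ℝ≥0∞ := fun w => ENNReal.ofReal m *
    ENNReal.ofReal (√(∑ i, (ds h K (w i)) ^ 2)) with hg
  have hgm : Measurable g := by fun_prop
  have h1 := marginal_lap hm (Nat.le_succ m) e (A.indicator g) (hgm.indicator hAm)
  rw [lintegral_indicator hAm, hg, lintegral_const_mul _ (by fun_prop)] at h1
  refine le_trans (le_of_eq ?_) h1
  simp_rw [he]
  have hS : MeasurableSet {x : Fin (n + m + 1) → ℝ | ∑ i, |x i| < 1} := by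
    refine measurableSet_lt ?_ measurable_const
    fun_prop
  have hF : Measurable (fun x : Fin (n + m + 1) → ℝ => A.indicator
      (fun w => ENNReal.ofReal m * ENNReal.ofReal (√(∑ i, (ds h K (w i)) ^ 2)))
      (fun i => m * x (pos n m i))) :=
    (hgm.indicator hAm).comp (by fun_prop)
  rw [← lintegral_indicator hS,
    ← (PiLp.volume_preserving_ofLp (Fin (n + m + 1))).lintegral_comp (hF.indicator hS)]
  have hS2 : MeasurableSet {x | x ∈ {x : EuclideanSpace ℝ (Fin (n + m + 1)) | l1 x < 1} ∧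
      |lev h K n m x| < D} :=
    (measurableSet_lt l1_continuous.measurable measurable_const).inter
      (measurableSet_lt (lev_continuous hh).abs.measurable measurable_const)
  rw [← lintegral_indicator hS2]
  refine lintegral_congr fun x => ?_
  have hcond1 : (WithLp.ofLp x ∈ {x : Fin (n + m + 1) → ℝ | ∑ i, |x i| < 1}) ↔ l1 x < 1 := Iff.rfl
  have hcond2 : ((fun i => m * x (pos n m i)) ∈ A) ↔ |lev h K n m x| < D := Iff.rfl
  by_cases hx1 : l1 x < 1
  · by_cases hx2 : |lev h K n m x| < D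
    · rw [indicator_of_mem (show x ∈ {x | x ∈ {x : EuclideanSpace ℝ (Fin (n + m + 1)) | l1 x < 1} ∧
        |lev h K n m x| < D} from ⟨hx1, hx2⟩), indicator_of_mem (hcond1.2 hx1),
        indicator_of_mem (hcond2.2 hx2), grd_norm, ENNReal.ofReal_mul (by positivity)]
      rfl
    · rw [indicator_of_notMem (fun h => hx2 h.2), indicator_of_mem (hcond1.2 hx1),
        indicator_of_notMem (fun h => hx2 (hcond2.1 h))]
  · rw [indicator_of_notMem (fun h => hx1 h.1), indicator_of_notMem (fun h => hx1 (hcond1.1 h))]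

include hh in
lemma T2_le (hm : 0 < m) (D : ℝ) :
    μHE[n + m] {x | x ∈ {x : EuclideanSpace ℝ (Fin (n + m + 1)) | l1 x < 1} ∧ x 0 = 0 ∧
      |lev h K n m x| ≤ D} ≤
    ENNReal.ofReal (2 ^ m / m.factorial * ((m : ℝ) ^ n)⁻¹ * 2 ^ n) *
      (Measure.pi (fun _ : Fin n => lap)) {x : Fin n → ℝ | |∑ i, ph h K (x i)| ≤ D} := by
  have hphm := (ph_continuous (K := K) hh).measurable
  set A : Set (Fin n → ℝ) := {x : Fin n → ℝ | |∑ i, ph h K (x i)| ≤ D} with hA
  have hAm : MeasurableSet A := measurableSet_le (by fun_prop) measurable_const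
  have h1 := marginal_lap hm le_rfl (finSumFinEquiv (m := n) (n := m)) (A.indicator 1)
    (measurable_one.indicator hAm)
  rw [lintegral_indicator_one hAm] at h1
  refine le_trans (le_of_eq ?_) h1
  set e0 : EuclideanSpace ℝ (Fin (n + m + 1)) := EuclideanSpace.single 0 1 with he0
  have hS : MeasurableSet {x : Fin (n + m) → ℝ | ∑ i, |x i| < 1} := by
    refine measurableSet_lt ?_ measurable_const
    fun_prop
  set B : Set (Fin (n + m) → ℝ) := {x | (fun i : Fin n => (m : ℝ) * x (finSumFinEquiv (Sum.inl i))) ∈ A}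
    with hB
  have hBm : MeasurableSet B :=
    (by fun_prop : Measurable (fun x : Fin (n + m) → ℝ =>
      (fun i : Fin n => (m : ℝ) * x (finSumFinEquiv (Sum.inl i))))) hAm
  have hind : (fun x : Fin (n + m) → ℝ => A.indicator (1 : (Fin n → ℝ) → ℝ≥0∞)
      (fun i => (m : ℝ) * x (finSumFinEquiv (Sum.inl i)))) = B.indicator 1 := by
    funext x
    by_cases hx : x ∈ B
    · rw [indicator_of_mem hx, indicator_of_mem (show _ ∈ A from hx)]
      rfl
    · rw [indicator_of_notMem hx, indicator_of_notMem (show _ ∉ A from hx)]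
  rw [hind, lintegral_indicator_one hBm, Measure.restrict_apply hBm,
    ← (PiLp.volume_preserving_ofLp (Fin (n + m))).measure_preimage (hBm.inter hS).nullMeasurableSet,
    ← EuclideanSpace.euclideanHausdorffMeasure_eq_volume,
    ← (cons0 (n + m)).isometry.euclideanHausdorffMeasure_image]
  congr 1
  ext x
  simp only [mem_ofPred_eq, mem_image, mem_preimage, mem_inter_iff]
  constructor
  · rintro ⟨hx1, hx2, hx3⟩
    have hxy : cons0 (n + m) (WithLp.toLp 2 (fun i => x i.succ)) = x := by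
      ext i
      refine Fin.cases ?_ (fun j => ?_) i
      · simp [cons0_apply, hx2]
      · simp [cons0_apply]
    refine ⟨WithLp.toLp 2 (fun i => x i.succ), ⟨?_, ?_⟩, hxy⟩
    · exact hx3
    · rw [l1, Fin.sum_univ_succ, hx2] at hx1
      simpa using hx1
  · rintro ⟨y, ⟨hy1, hy2⟩, rfl⟩
    refine ⟨?_, ?_, ?_⟩
    · rw [l1, Fin.sum_univ_succ]
      simpa [cons0_apply] using hy2
    · simp [cons0_apply]
    · exact hy1

end main

/-- The cut theorem for the Euclidean Hausdorff measure. -/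
theorem exists_cut (c : ℝ) (hc : 0 < c) (hc2 : c < √2) :
    ∃ N₀ : ℕ, ∀ M : ℕ, N₀ ≤ M → ∃ F : Set (EuclideanSpace ℝ (Fin (M + 1))),
      MeasurableSet F ∧ F ⊆ {x | l1 x < 1} ∧
      volume F = volume {x : EuclideanSpace ℝ (Fin (M + 1)) | l1 x < 1} / 2 ∧
      μHE[M] ({x | l1 x < 1} ∩ frontier F) <
        ENNReal.ofReal (2 ^ (M + 1) / (2 * √Real.pi) / M.factorial / c) := by
  obtain ⟨h, hh, K, n, D, hn, hD, hlt⟩ := exists_laplace c hc hc2
  set J := ∫⁻ x in {x : Fin n → ℝ | |∑ i, ph h K (x i)| < D},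
        ENNReal.ofReal (√(∑ i, (ds h K (x i)) ^ 2)) ∂(Measure.pi (fun _ : Fin n => lap)) with hJ
  set p := (Measure.pi (fun _ : Fin n => lap)) {x : Fin n → ℝ | |∑ i, ph h K (x i)| ≤ D} with hp
  have hpi := Real.pi_pos
  have hspi : 0 < √Real.pi := Real.sqrt_pos.mpr hpi
  have h1 : Tendsto (fun m : ℕ => ENNReal.ofReal (D / (√Real.pi * c) *
      ((m.factorial : ℝ) * (m : ℝ) ^ n / (n + m).factorial))) atTop
      (𝓝 (ENNReal.ofReal (D / (√Real.pi * c) * 1))) := by
    exact (ENNReal.continuous_ofReal.tendsto _).comp ((ratio_tendsto n).const_mul _)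
  rw [mul_one] at h1
  have h2 := h1.eventually (lt_mem_nhds hlt)
  obtain ⟨m₀, hm₀⟩ := (h2.and (eventually_gt_atTop 0)).exists_forall_of_atTop
  refine ⟨n + m₀, fun M hM => ?_⟩
  obtain ⟨m, rfl⟩ : ∃ m, M = n + m := ⟨M - n, by omega⟩
  obtain ⟨hlt2, hm⟩ := hm₀ m (by omega)
  have hm' : (0 : ℝ) < m := by exact_mod_cast hm
  obtain ⟨b, hb⟩ := lev_affine (K := K) (n := n) (m := m) hh
  have hΩo : IsOpen {x : EuclideanSpace ℝ (Fin (n + m + 1)) | l1 x < 1} :=
    isOpen_lt l1_continuous continuous_const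
  refine exists_good (cell := cel h n m) cel_measurable (s := grd h K n m)
    (fun c => grd_ne_zero hn hm c) (b := b) hΩo (fun x hx => ?_) (Ψ := lev h K n m)
    (lev_continuous hh) lev_neg hb (D := D) _ ?_
  · show l1 (-x) < 1
    rw [l1_neg]
    exact hx
  · have hT1 := T1_le (K := K) (n := n) hh hm D
    have hT2 := T2_le (K := K) (n := n) hh hm D
    rw [← hJ] at hT1
    rw [← hp] at hT2
    set G : ℝ := 2 ^ (n + m + 1) / (m.factorial * (m : ℝ) ^ n) with hG
    have hG0 : 0 < G := by positivity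
    have hfac : ((m + 1).factorial : ℝ) = (m + 1) * m.factorial := by
      rw [Nat.factorial_succ]
      push_cast
      ring
    have hA1 : ENNReal.ofReal (2 ^ (m + 1) / (m + 1).factorial * ((m : ℝ) ^ n)⁻¹ * 2 ^ n) *
        (ENNReal.ofReal m * J) ≤ ENNReal.ofReal G * J := by
      rw [← mul_assoc, ← ENNReal.ofReal_mul (by positivity)]
      gcongr
      rw [hfac, hG]
      have h3 : 2 ^ (m + 1) / ((m + 1) * (m.factorial : ℝ)) * ((m : ℝ) ^ n)⁻¹ * 2 ^ n * m =
          2 ^ (n + m + 1) / (m.factorial * (m : ℝ) ^ n) * (m / (m + 1)) := by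
        field_simp
        ring
      rw [h3]
      have h4 : (m : ℝ) / (m + 1) ≤ 1 := by
        rw [div_le_one (by positivity)]
        linarith
      have h5 : 0 < (2 : ℝ) ^ (n + m + 1) / (m.factorial * (m : ℝ) ^ n) := hG0
      nlinarith
    have hA2 : ENNReal.ofReal (2 * D) *
        (ENNReal.ofReal (2 ^ m / m.factorial * ((m : ℝ) ^ n)⁻¹ * 2 ^ n) * p) =
        ENNReal.ofReal G * (ENNReal.ofReal D * p) := by
      rw [← mul_assoc, ← mul_assoc, ← ENNReal.ofReal_mul (by positivity),
        ← ENNReal.ofReal_mul (by positivity)]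
      congr 2
      rw [hG, show n + m + 1 = m + (n + 1) by ring, pow_add, pow_succ]
      field_simp
    calc _ ≤ ENNReal.ofReal (2 ^ (m + 1) / (m + 1).factorial * ((m : ℝ) ^ n)⁻¹ * 2 ^ n) *
          (ENNReal.ofReal m * J) + ENNReal.ofReal (2 * D) *
          (ENNReal.ofReal (2 ^ m / m.factorial * ((m : ℝ) ^ n)⁻¹ * 2 ^ n) * p) := by
          gcongr
      _ ≤ ENNReal.ofReal G * J + ENNReal.ofReal G * (ENNReal.ofReal D * p) := by
          rw [hA2]
          gcongr
      _ = ENNReal.ofReal G * (J + ENNReal.ofReal D * p) := by ring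
      _ < ENNReal.ofReal G * ENNReal.ofReal (D / (√Real.pi * c) *
          ((m.factorial : ℝ) * (m : ℝ) ^ n / (n + m).factorial)) := by
          refine (ENNReal.mul_lt_mul_iff_right ?_ ENNReal.ofReal_ne_top).2 hlt2
          exact (ENNReal.ofReal_pos.mpr hG0).ne'
      _ = ENNReal.ofReal (2 * D) *
          ENNReal.ofReal (2 ^ (n + m + 1) / (2 * √Real.pi) / (n + m).factorial / c) := by
          rw [← ENNReal.ofReal_mul (by positivity), ← ENNReal.ofReal_mul (by positivity)]
          congr 1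
          rw [hG]
          field_simp

end Pool.H65.Kls
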